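import Mathlib

/-! The box theorem of Erdős with a power saving: a set of `r`-tuples without a complete box of side `K`
(helper84). -/

set_option autoImplicit false

namespace Pool.Agent.K3h84.GP

open Finset

theorem mean_pow {β : Type} (s : Finset β) (hs : s.Nonempty) (z : β → ℝ) (hz : ∀ b ∈ s, 0 ≤ z b) (n : ℕ) :
    ((∑ b ∈ s, z b) / s.card) ^ n ≤ (∑ b ∈ s, z b ^ n) / s.card := by
  have hc : (0 : ℝ) < s.card := by exact_mod_cast hs.card_pos
  have h := Real.pow_arith_mean_le_arith_mean_pow s (fun _ => 1 / (s.card : ℝ)) z (fun _ _ => by positivity)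
    (by rw [sum_const, nsmul_eq_mul]; field_simp) hz n
  rw [← mul_sum, ← mul_sum] at h
  rw [div_eq_mul_one_div, mul_comm, div_eq_mul_one_div (∑ b ∈ s, z b ^ n), mul_comm (∑ b ∈ s, z b ^ n)]
  exact h

theorem sum_cons {α : Type} [DecidableEq α] {r : ℕ} (A : Fin (r + 1) → Finset α) (g : (Fin (r + 1) → α) → ℝ) :
    ∑ x ∈ Fintype.piFinset A, g x =
      ∑ a ∈ A 0, ∑ y ∈ Fintype.piFinset (fun i : Fin r => A i.succ), g (Fin.cons a y) := by
  rw [← sum_product']
  refine sum_nbij' (fun x => (x 0, fun i => x i.succ)) (fun p => Fin.cons p.1 p.2) ?_ ?_ ?_ ?_ ?_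
  · intro x hx
    rw [Fintype.mem_piFinset] at hx
    rw [mem_product, Fintype.mem_piFinset]
    exact ⟨hx 0, fun i => hx i.succ⟩
  · rintro ⟨a, y⟩ hp
    rw [mem_product, Fintype.mem_piFinset] at hp
    rw [Fintype.mem_piFinset]
    intro i
    refine Fin.cases ?_ (fun j => ?_) i
    · simpa using hp.1
    · simpa using hp.2 j
  · intro x _
    funext i
    refine Fin.cases ?_ (fun j => ?_) i <;> simp
  · rintro ⟨a, y⟩ _
    simp
  · intro x _
    congr 1
    funext i
    refine Fin.cases ?_ (fun j => ?_) i <;> simp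

theorem prod_cons_univ {r K : ℕ} (g : (Fin (r + 1) → Fin K) → ℝ) :
    ∏ σ : Fin (r + 1) → Fin K, g σ = ∏ s : Fin K, ∏ τ : Fin r → Fin K, g (Fin.cons s τ) := by
  rw [← Fintype.prod_prod_type']
  exact (Fintype.prod_equiv (Fin.consEquiv (fun _ => Fin K)) _ _ (fun p => rfl)).symm

/-- **Box inequality.** -/
theorem box {α : Type} [DecidableEq α] (K : ℕ) : ∀ (r : ℕ) (A : Fin r → Finset α), (∀ i, (A i).Nonempty) →
    ∀ f : (Fin r → α) → ℝ, (∀ x, 0 ≤ f x) →
    ((∑ x ∈ Fintype.piFinset A, f x) / ∏ i, ((A i).card : ℝ)) ^ (K ^ r) ≤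
      (∑ v ∈ Fintype.piFinset (fun i => Fintype.piFinset (fun _ : Fin K => A i)),
        ∏ σ : Fin r → Fin K, f (fun i => v i (σ i))) / ∏ i, ((A i).card : ℝ) ^ K := by
  intro r
  induction r with
  | zero =>
    intro A hA f hf
    have e1 : Fintype.piFinset A = {fun i => i.elim0} := by
      ext x
      rw [Fintype.mem_piFinset, mem_singleton]
      exact ⟨fun _ => funext fun i => i.elim0, fun _ i => i.elim0⟩
    have e2 : Fintype.piFinset (fun i : Fin 0 => Fintype.piFinset (fun _ : Fin K => A i)) =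
        {fun i => i.elim0} := by
      ext x
      rw [Fintype.mem_piFinset, mem_singleton]
      exact ⟨fun _ => funext fun i => i.elim0, fun _ i => i.elim0⟩
    rw [e1, e2, sum_singleton, sum_singleton]
    have e3 : ∀ σ : Fin 0 → Fin K, f (fun i => (fun i : Fin 0 => (i.elim0 : Fin K → α)) i (σ i)) =
        f (fun i => i.elim0) := fun σ => congrArg f (funext fun i => i.elim0)
    simp only [e3, prod_const]
    simp
  | succ r ih =>
    intro A hA f hf
    obtain ⟨n0, hn0⟩ : ∃ n0 : ℝ, n0 = ((A 0).card : ℝ) := ⟨_, rfl⟩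
    obtain ⟨R, hR⟩ : ∃ R : ℝ, R = ∏ i : Fin r, ((A i.succ).card : ℝ) := ⟨_, rfl⟩
    have hn0p : 0 < n0 := by rw [hn0]; exact_mod_cast (hA 0).card_pos
    have hRp : 0 < R := by
      rw [hR]
      exact prod_pos fun i _ => by exact_mod_cast (hA i.succ).card_pos
    have hprod : ∏ i, ((A i).card : ℝ) = n0 * R := by rw [Fin.prod_univ_succ, hn0, hR]
    have hprodK : ∏ i, ((A i).card : ℝ) ^ K = n0 ^ K * R ^ K := by
      rw [prod_pow, hprod, mul_pow]
    obtain ⟨V, hV⟩ : ∃ V, V = Fintype.piFinset (fun _ : Fin K => A 0) := ⟨_, rfl⟩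
    obtain ⟨Y, hY⟩ : ∃ Y, Y = Fintype.piFinset (fun i : Fin r => A i.succ) := ⟨_, rfl⟩
    have hVne : V.Nonempty := by
      rw [hV, Fintype.piFinset_nonempty]
      exact fun _ => hA 0
    have hYne : Y.Nonempty := by
      rw [hY, Fintype.piFinset_nonempty]
      exact fun i => hA i.succ
    have hVc : (V.card : ℝ) = n0 ^ K := by
      rw [hV, Fintype.card_piFinset, prod_const, card_univ, Fintype.card_fin, hn0]
      push_cast
      rfl
    have hYc : (Y.card : ℝ) = R := by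
      rw [hY, Fintype.card_piFinset, hR]
      push_cast
      rfl
    obtain ⟨g, hg⟩ : ∃ g : (Fin K → α) → (Fin r → α) → ℝ, ∀ v y, g v y = ∏ s, f (Fin.cons (v s) y) :=
      ⟨_, fun _ _ => rfl⟩
    have hg0 : ∀ v y, 0 ≤ g v y := fun v y => by
      rw [hg]
      exact prod_nonneg fun s _ => hf _
    -- the right side
    have hrhs : (∑ v ∈ Fintype.piFinset (fun i => Fintype.piFinset (fun _ : Fin K => A i)),
        ∏ σ : Fin (r + 1) → Fin K, f (fun i => v i (σ i))) =
        ∑ v ∈ V, ∑ w ∈ Fintype.piFinset (fun i : Fin r => Fintype.piFinset (fun _ : Fin K => A i.succ)),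
          ∏ τ : Fin r → Fin K, g v (fun i => w i (τ i)) := by
      rw [sum_cons, hV]
      apply sum_congr rfl
      intro v _
      apply sum_congr rfl
      intro w _
      rw [prod_cons_univ, prod_comm]
      apply prod_congr rfl
      intro τ _
      rw [hg]
      apply prod_congr rfl
      intro s _
      congr 1
      funext i
      refine Fin.cases ?_ (fun j => ?_) i <;> simp
    have hstep : ∀ v ∈ V, ((∑ y ∈ Y, g v y) / R) ^ (K ^ r) * R ^ K ≤
        ∑ w ∈ Fintype.piFinset (fun i : Fin r => Fintype.piFinset (fun _ : Fin K => A i.succ)),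
          ∏ τ : Fin r → Fin K, g v (fun i => w i (τ i)) := by
      intro v _
      have h := ih (fun i => A i.succ) (fun i => hA i.succ) (g v) (hg0 v)
      rw [prod_pow, ← hR, le_div_iff₀ (by positivity)] at h
      rw [hY]
      exact h
    have hlhs : (∑ x ∈ Fintype.piFinset A, f x) = ∑ y ∈ Y, ∑ a ∈ A 0, f (Fin.cons a y) := by
      rw [sum_cons, sum_comm, hY]
    have hgs : ∀ y, ∑ v ∈ V, g v y = (∑ a ∈ A 0, f (Fin.cons a y)) ^ K := by
      intro y
      simp only [hg]
      rw [hV]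
      have := Finset.prod_univ_sum (fun _ : Fin K => A 0) (fun (_ : Fin K) a => f (Fin.cons a y))
      rw [← this, prod_const, card_univ, Fintype.card_fin]
    rw [hprod, hprodK, hrhs, hlhs]
    have h1 : ((∑ y ∈ Y, ∑ a ∈ A 0, f (Fin.cons a y)) / (n0 * R)) ^ K ≤
        (∑ v ∈ V, (∑ y ∈ Y, g v y) / R) / n0 ^ K := by
      have h2 := mean_pow Y hYne (fun y => (∑ a ∈ A 0, f (Fin.cons a y)) / n0)
        (fun y _ => div_nonneg (sum_nonneg fun a _ => hf _) hn0p.le) K
      rw [hYc] at h2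
      have e1 : (∑ y ∈ Y, (∑ a ∈ A 0, f (Fin.cons a y)) / n0) / R =
          (∑ y ∈ Y, ∑ a ∈ A 0, f (Fin.cons a y)) / (n0 * R) := by
        rw [← sum_div, div_div]
      have e2 : (∑ y ∈ Y, ((∑ a ∈ A 0, f (Fin.cons a y)) / n0) ^ K) / R =
          (∑ v ∈ V, (∑ y ∈ Y, g v y) / R) / n0 ^ K := by
        rw [← sum_div, sum_comm, div_div, mul_comm, ← div_div]
        congr 1
        rw [sum_div]
        apply sum_congr rfl
        intro y _
        rw [hgs, div_pow]
      rw [e1, e2] at h2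
      exact h2
    have hq0 : 0 ≤ (∑ y ∈ Y, ∑ a ∈ A 0, f (Fin.cons a y)) / (n0 * R) :=
      div_nonneg (sum_nonneg fun y _ => sum_nonneg fun a _ => hf _) (by positivity)
    have h3 := mean_pow V hVne (fun v => (∑ y ∈ Y, g v y) / R)
      (fun v _ => div_nonneg (sum_nonneg fun y _ => hg0 _ _) hRp.le) (K ^ r)
    rw [hVc] at h3
    calc ((∑ y ∈ Y, ∑ a ∈ A 0, f (Fin.cons a y)) / (n0 * R)) ^ (K ^ (r + 1))
        = (((∑ y ∈ Y, ∑ a ∈ A 0, f (Fin.cons a y)) / (n0 * R)) ^ K) ^ (K ^ r) := by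
          rw [← pow_mul, pow_succ']
      _ ≤ ((∑ v ∈ V, (∑ y ∈ Y, g v y) / R) / n0 ^ K) ^ (K ^ r) :=
          pow_le_pow_left₀ (pow_nonneg hq0 _) h1 _
      _ ≤ (∑ v ∈ V, ((∑ y ∈ Y, g v y) / R) ^ (K ^ r)) / n0 ^ K := h3
      _ ≤ _ := by
          rw [div_le_div_iff₀ (by positivity) (by positivity), mul_comm (n0 ^ K) (R ^ K), ← mul_assoc]
          refine mul_le_mul_of_nonneg_right ?_ (by positivity)
          rw [sum_mul]
          exact sum_le_sum hstep

end Pool.Agent.K3h84.GP
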