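import Mathlib
import Pool.Agent.K3h84.GP.Box

/-! Sets of `r`-tuples without a complete box: power saving; Ramsey's theorem; Erdős-Stone (helper84). -/

set_option autoImplicit false

namespace Pool.Agent.K3h84.GP

open Finset

theorem card_eq_pair {α : Type} [DecidableEq α] (K : ℕ) (A : Finset α) (s t : Fin K) (hst : s ≠ t) :
    ((Fintype.piFinset (fun _ : Fin K => A)).filter (fun w => w s = w t)).card ≤ A.card ^ (K - 1) := by
  have h1 : Fintype.card {u : Fin K // u ≠ s} = K - 1 := by
    rw [Fintype.card_subtype_compl, Fintype.card_fin, Fintype.card_subtype_eq]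
  have h2 : (Fintype.piFinset (fun _ : {u : Fin K // u ≠ s} => A)).card = A.card ^ (K - 1) := by
    rw [Fintype.card_piFinset, prod_const, card_univ, h1]
  rw [← h2]
  refine card_le_card_of_injOn (fun w u => w u) ?_ ?_
  · intro w hw
    have hw' := (mem_filter.1 (mem_coe.1 hw)).1
    rw [Fintype.mem_piFinset] at hw'
    exact mem_coe.2 (Fintype.mem_piFinset.2 fun u => hw' u)
  · intro w hw w' hw' h
    have e1 := (mem_filter.1 (mem_coe.1 hw)).2
    have e2 := (mem_filter.1 (mem_coe.1 hw')).2
    funext u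
    by_cases hu : u = s
    · subst hu
      rw [e1, e2]
      exact congrFun h ⟨t, fun h => hst h.symm⟩
    · exact congrFun h ⟨u, hu⟩

open Classical in
theorem card_nonInj {α : Type} (K : ℕ) (A : Finset α) (hA : A.Nonempty) :
    (((Fintype.piFinset (fun _ : Fin K => A)).filter (fun w => ¬ Function.Injective w)).card : ℝ) ≤
      (A.card : ℝ) ^ K * ((K : ℝ) ^ 2 / A.card) := by
  have hAp : (0 : ℝ) < A.card := by exact_mod_cast hA.card_pos
  have h1 : (Fintype.piFinset (fun _ : Fin K => A)).filter (fun w => ¬ Function.Injective w) ⊆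
      ((univ : Finset (Fin K × Fin K)).filter (fun p => p.1 ≠ p.2)).biUnion
        (fun p => (Fintype.piFinset (fun _ : Fin K => A)).filter (fun w => w p.1 = w p.2)) := by
    intro w hw
    rw [mem_filter] at hw
    obtain ⟨h1, h2⟩ := hw
    rw [Function.Injective] at h2
    push Not at h2
    obtain ⟨s, t, h3, h4⟩ := h2
    rw [mem_biUnion]
    exact ⟨(s, t), mem_filter.2 ⟨mem_univ _, h4⟩, mem_filter.2 ⟨h1, h3⟩⟩
  have h2 : ((Fintype.piFinset (fun _ : Fin K => A)).filter (fun w => ¬ Function.Injective w)).card ≤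
      K ^ 2 * A.card ^ (K - 1) := by
    refine (card_le_card h1).trans (card_biUnion_le.trans ?_)
    refine (sum_le_sum (fun p hp => card_eq_pair K A p.1 p.2 (mem_filter.1 hp).2)).trans ?_
    rw [sum_const, smul_eq_mul]
    refine Nat.mul_le_mul_right _ ((card_filter_le _ _).trans (le_of_eq ?_))
    rw [card_univ, Fintype.card_prod, Fintype.card_fin, sq]
  rcases Nat.eq_zero_or_pos K with hK | hK
  · subst hK
    have h3 : ((Fintype.piFinset (fun _ : Fin 0 => A)).filter (fun w => ¬ Function.Injective w)).card = 0 := by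
      rw [card_eq_zero, filter_eq_empty_iff]
      intro w _ hw
      exact hw (Function.injective_of_subsingleton w)
    rw [h3]
    simp
  · have h3 : (A.card : ℝ) ^ K * ((K : ℝ) ^ 2 / A.card) = (K : ℝ) ^ 2 * (A.card : ℝ) ^ (K - 1) := by
      obtain ⟨k, rfl⟩ : ∃ k, K = k + 1 := ⟨K - 1, by omega⟩
      rw [Nat.add_sub_cancel, pow_succ (A.card : ℝ)]
      field_simp
    rw [h3]
    exact_mod_cast h2

open Classical in
/-- **Box theorem with a power saving.** -/
theorem boxes {α : Type} (r K : ℕ) (n : ℕ) (hn : 1 ≤ n) (A : Fin r → Finset α)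
    (hA : ∀ i, n ≤ (A i).card) (S : Finset (Fin r → α)) (hS : S ⊆ Fintype.piFinset A)
    (h : ∀ v : Fin r → Fin K → α, (∀ i, Function.Injective (v i)) → (∀ i s, v i s ∈ A i) →
      ∃ σ : Fin r → Fin K, (fun i => v i (σ i)) ∉ S) :
    ((S.card : ℝ) / ∏ i, ((A i).card : ℝ)) ^ (K ^ r) ≤ r * (K : ℝ) ^ 2 / n := by
  have hne : ∀ i, (A i).Nonempty := fun i => card_pos.1 (by have := hA i; omega)
  have hb := box K r A hne (fun x => if x ∈ S then 1 else 0) (fun x => by split_ifs <;> norm_num)
  have h1 : ∑ x ∈ Fintype.piFinset A, (if x ∈ S then (1 : ℝ) else 0) = S.card := by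
    rw [sum_ite_mem, inter_eq_right.2 hS, sum_const, nsmul_eq_mul, mul_one]
  rw [h1] at hb
  refine hb.trans ?_
  have hnp : (0 : ℝ) < n := by exact_mod_cast hn
  have hcp : ∀ i, (0 : ℝ) < (A i).card := fun i => by exact_mod_cast (hne i).card_pos
  have hP : 0 < ∏ i, ((A i).card : ℝ) ^ K := prod_pos fun i _ => pow_pos (hcp i) K
  rw [div_le_iff₀ hP]
  -- each term is at most the number of i with v i not injective
  have h2 : ∀ v ∈ Fintype.piFinset (fun i => Fintype.piFinset (fun _ : Fin K => A i)),
      (∏ σ : Fin r → Fin K, if (fun i => v i (σ i)) ∈ S then (1 : ℝ) else 0) ≤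
        ∑ i : Fin r, if ¬ Function.Injective (v i) then (1 : ℝ) else 0 := by
    intro v hv
    rw [Fintype.mem_piFinset] at hv
    by_cases hinj : ∀ i, Function.Injective (v i)
    · obtain ⟨σ, hσ⟩ := h v hinj (fun i s => (Fintype.mem_piFinset.1 (hv i)) s)
      rw [prod_eq_zero (mem_univ σ) (if_neg hσ)]
      exact sum_nonneg fun i _ => by split_ifs <;> norm_num
    · push Not at hinj
      obtain ⟨i, hi⟩ := hinj
      have h3 : (∏ σ : Fin r → Fin K, if (fun i => v i (σ i)) ∈ S then (1 : ℝ) else 0) ≤ 1 :=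
        prod_le_one (fun σ _ => by split_ifs <;> norm_num) (fun σ _ => by split_ifs <;> norm_num)
      refine h3.trans ?_
      have h4 : (if ¬ Function.Injective (v i) then (1 : ℝ) else 0) ≤
          ∑ i : Fin r, if ¬ Function.Injective (v i) then (1 : ℝ) else 0 :=
        single_le_sum (f := fun i => if ¬ Function.Injective (v i) then (1 : ℝ) else 0)
          (fun j _ => by split_ifs <;> norm_num) (mem_univ i)
      rw [if_pos hi] at h4
      exact h4
  refine (sum_le_sum h2).trans ?_
  rw [sum_comm]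
  have h3 : ∀ i : Fin r, (∑ v ∈ Fintype.piFinset (fun i => Fintype.piFinset (fun _ : Fin K => A i)),
      if ¬ Function.Injective (v i) then (1 : ℝ) else 0) ≤
        ((K : ℝ) ^ 2 / n) * ∏ i, ((A i).card : ℝ) ^ K := by
    intro i
    rw [sum_boole]
    have h4 : (Fintype.piFinset (fun i => Fintype.piFinset (fun _ : Fin K => A i))).filter
        (fun v => ¬ Function.Injective (v i)) = Fintype.piFinset (fun j =>
          (Fintype.piFinset (fun _ : Fin K => A j)).filter (fun w => j = i → ¬ Function.Injective w)) := by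
      ext v
      rw [mem_filter, Fintype.mem_piFinset, Fintype.mem_piFinset]
      constructor
      · rintro ⟨h5, h6⟩ j
        rw [mem_filter]
        refine ⟨h5 j, ?_⟩
        rintro rfl
        exact h6
      · intro h5
        exact ⟨fun j => (mem_filter.1 (h5 j)).1, (mem_filter.1 (h5 i)).2 rfl⟩
    rw [h4, Fintype.card_piFinset, Nat.cast_prod]
    have h5 : ∀ j ∈ (univ : Finset (Fin r)), ((((Fintype.piFinset (fun _ : Fin K => A j)).filter
        (fun w => j = i → ¬ Function.Injective w)).card : ℕ) : ℝ) ≤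
        ((A j).card : ℝ) ^ K * (if j = i then (K : ℝ) ^ 2 / n else 1) := by
      intro j _
      by_cases hj : j = i
      · subst hj
        rw [if_pos rfl]
        have h6 : (Fintype.piFinset (fun _ : Fin K => A j)).filter (fun w => j = j → ¬ Function.Injective w) =
            (Fintype.piFinset (fun _ : Fin K => A j)).filter (fun w => ¬ Function.Injective w) := by
          apply filter_congr
          intro w _
          simp
        rw [h6]
        refine (card_nonInj K (A j) (hne j)).trans ?_
        refine mul_le_mul_of_nonneg_left ?_ (by positivity)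
        exact div_le_div_of_nonneg_left (by positivity) hnp (by exact_mod_cast hA j)
      · rw [if_neg hj, mul_one]
        have h6 : ((Fintype.piFinset (fun _ : Fin K => A j)).filter
            (fun w => j = i → ¬ Function.Injective w)).card ≤ (A j).card ^ K := by
          refine (card_filter_le _ _).trans (le_of_eq ?_)
          rw [Fintype.card_piFinset, prod_const, card_univ, Fintype.card_fin]
        exact_mod_cast h6
    refine (prod_le_prod (fun j _ => Nat.cast_nonneg _) h5).trans (le_of_eq ?_)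
    rw [prod_mul_distrib, prod_ite_eq' univ i, if_pos (mem_univ i), mul_comm]
  refine (sum_le_sum fun i _ => h3 i).trans (le_of_eq ?_)
  rw [sum_const, card_univ, Fintype.card_fin, nsmul_eq_mul]
  ring

open Classical in
/-- the box theorem: the number of tuples -/
theorem boxes_card {α : Type} (r K : ℕ) (hK : 1 ≤ K) (hr : 1 ≤ r) (n : ℕ) (hn : 1 ≤ n) (A : Fin r → Finset α)
    (hA : ∀ i, n ≤ (A i).card) (S : Finset (Fin r → α)) (hS : S ⊆ Fintype.piFinset A)
    (h : ∀ v : Fin r → Fin K → α, (∀ i, Function.Injective (v i)) → (∀ i s, v i s ∈ A i) →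
      ∃ σ : Fin r → Fin K, (fun i => v i (σ i)) ∉ S) :
    (S.card : ℝ) ≤ ((r * K ^ 2 : ℕ) : ℝ) * (∏ i, ((A i).card : ℝ)) / (n : ℝ) ^ (1 / ((K ^ r : ℕ) : ℝ)) := by
  have h1 := boxes r K n hn A hA S hS h
  have hne : ∀ i, (A i).Nonempty := fun i => card_pos.1 (by have := hA i; omega)
  have hnp : (0 : ℝ) < n := by exact_mod_cast hn
  have hP : 0 < ∏ i, ((A i).card : ℝ) := prod_pos fun i _ => by exact_mod_cast (hne i).card_pos
  obtain ⟨x, hx⟩ : ∃ x : ℝ, x = (S.card : ℝ) / ∏ i, ((A i).card : ℝ) := ⟨_, rfl⟩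
  have hx0 : 0 ≤ x := by rw [hx]; positivity
  rw [← hx] at h1
  have hm : (K ^ r : ℕ) ≠ 0 := (pow_pos hK r).ne'
  obtain ⟨c, hc⟩ : ∃ c : ℝ, c = 1 / ((K ^ r : ℕ) : ℝ) := ⟨_, rfl⟩
  have hc0 : 0 < c := by rw [hc]; positivity
  have hc1 : c ≤ 1 := by
    rw [hc]
    have : (1 : ℝ) ≤ ((K ^ r : ℕ) : ℝ) := by exact_mod_cast Nat.one_le_iff_ne_zero.2 hm
    exact (div_le_one (by linarith)).2 this
  have h2 : x ≤ ((r : ℝ) * (K : ℝ) ^ 2 / n) ^ c := by
    have h3 : x = (x ^ (K ^ r)) ^ c := by
      rw [hc, one_div, Real.pow_rpow_inv_natCast hx0 hm]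
    rw [h3]
    exact Real.rpow_le_rpow (pow_nonneg hx0 _) h1 hc0.le
  have hrK : (1 : ℝ) ≤ (r : ℝ) * (K : ℝ) ^ 2 := by
    have : 1 ≤ r * K ^ 2 := Nat.mul_pos hr (pow_pos hK 2)
    exact_mod_cast this
  have h4 : ((r : ℝ) * (K : ℝ) ^ 2 / n) ^ c ≤ (r : ℝ) * (K : ℝ) ^ 2 / (n : ℝ) ^ c := by
    rw [Real.div_rpow (by positivity) hnp.le]
    refine div_le_div_of_nonneg_right ?_ (by positivity)
    calc ((r : ℝ) * (K : ℝ) ^ 2) ^ c ≤ ((r : ℝ) * (K : ℝ) ^ 2) ^ (1 : ℝ) :=
          Real.rpow_le_rpow_of_exponent_le hrK hc1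
      _ = _ := Real.rpow_one _
  have h5 := h2.trans h4
  rw [hx, div_le_iff₀ hP] at h5
  rw [← hc]
  refine h5.trans (le_of_eq ?_)
  push_cast
  ring

/-- **Ramsey's theorem** for one colour with a power -/
theorem ramsey {α : Type} [DecidableEq α] (G : α → α → Prop) (hsym : ∀ x y, G x y → G y x) (k : ℕ) :
    ∀ (a : ℕ) (A : Finset α), k ^ a ≤ A.card →
    (∀ B ⊆ A, B.card = a + 1 → ∃ x ∈ B, ∃ y ∈ B, x ≠ y ∧ G x y) →
    ∃ B ⊆ A, B.card = k ∧ ∀ x ∈ B, ∀ y ∈ B, x ≠ y → G x y := by
  classical
  intro a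
  induction a with
  | zero =>
    intro A hA h
    exfalso
    rw [pow_zero] at hA
    obtain ⟨x, hx⟩ := card_pos.1 hA
    obtain ⟨y, hy, z, hz, hyz, -⟩ := h {x} (singleton_subset_iff.2 hx) (card_singleton x)
    rw [mem_singleton] at hy hz
    exact hyz (hy.trans hz.symm)
  | succ a ih =>
    intro A hA h
    obtain ⟨Cl, hCl⟩ : ∃ Cl : Finset α → Prop, ∀ B, Cl B ↔ ∀ x ∈ B, ∀ y ∈ B, x ≠ y → G x y :=
      ⟨_, fun _ => Iff.rfl⟩
    obtain ⟨B, hB, hmax⟩ := exists_max_image (A.powerset.filter Cl)
      card ⟨∅, mem_filter.2 ⟨empty_mem_powerset A, (hCl ∅).2 fun x hx => absurd hx (notMem_empty x)⟩⟩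
    rw [mem_filter, mem_powerset, hCl] at hB
    obtain ⟨hBA, hBc⟩ := hB
    by_cases hBk : k ≤ B.card
    · obtain ⟨B', hB', hc⟩ := exists_subset_card_eq hBk
      exact ⟨B', hB'.trans hBA, hc, fun x hx y hy => hBc x (hB' hx) y (hB' hy)⟩
    · push Not at hBk
      have hcov : A \ B ⊆ B.biUnion (fun b => (A \ B).filter (fun x => ¬ G x b)) := by
        intro x hx
        by_contra hcon
        have h1 : ∀ b ∈ B, G x b := by
          intro b hb
          by_contra hg
          exact hcon (mem_biUnion.2 ⟨b, hb, mem_filter.2 ⟨hx, hg⟩⟩)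
        rw [mem_sdiff] at hx
        have h2 := hmax (insert x B) (by
          rw [mem_filter, mem_powerset, hCl]
          refine ⟨insert_subset hx.1 hBA, ?_⟩
          intro y hy z hz hyz
          rw [mem_insert] at hy hz
          rcases hy with rfl | hy
          · rcases hz with rfl | hz
            · exact absurd rfl hyz
            · exact h1 z hz
          · rcases hz with rfl | hz
            · exact hsym _ _ (h1 y hy)
            · exact hBc y hy z hz hyz)
        rw [card_insert_of_notMem hx.2] at h2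
        omega
      have hex : ∃ b ∈ B, k ^ a ≤ ((A \ B).filter (fun x => ¬ G x b)).card := by
        by_contra hcon
        push Not at hcon
        have h1 : (A \ B).card ≤ B.card * (k ^ a - 1) := by
          refine (card_le_card hcov).trans (card_biUnion_le.trans ?_)
          refine (sum_le_sum (fun b hb => Nat.le_sub_one_of_lt (hcon b hb))).trans ?_
          rw [sum_const, smul_eq_mul]
        have h2 : (A \ B).card + B.card = A.card := card_sdiff_add_card_eq_card hBA
        have hk0 : k ≠ 0 := by omega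
        have hka : 1 ≤ k ^ a := Nat.one_le_iff_ne_zero.2 (pow_ne_zero a hk0)
        have h3 : A.card ≤ B.card * k ^ a := by
          calc A.card = (A \ B).card + B.card := h2.symm
            _ ≤ B.card * (k ^ a - 1) + B.card := by omega
            _ = B.card * k ^ a := by
              obtain ⟨q, hq⟩ : ∃ q, k ^ a = q + 1 := ⟨k ^ a - 1, by omega⟩
              rw [hq, Nat.add_sub_cancel]
              ring
        have h4 : B.card * k ^ a < k ^ (a + 1) := by
          rw [pow_succ, mul_comm]
          exact Nat.mul_lt_mul_of_pos_left hBk hka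
        omega
      obtain ⟨b, hb, hbc⟩ := hex
      obtain ⟨B', hB', h5, h6⟩ := ih ((A \ B).filter (fun x => ¬ G x b)) hbc (by
        intro B' hB' hc
        have hbn : b ∉ B' := fun hbb => by
          have := (mem_sdiff.1 (mem_filter.1 (hB' hbb)).1).2
          exact this hb
        obtain ⟨x, hx, y, hy, hxy, hG⟩ := h (insert b B')
          (insert_subset (hBA hb) (hB'.trans ((filter_subset _ _).trans sdiff_subset)))
          (by rw [card_insert_of_notMem hbn, hc])
        rw [mem_insert] at hx hy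
        rcases hx with rfl | hx
        · rcases hy with rfl | hy
          · exact absurd rfl hxy
          · exact absurd (hsym _ _ hG) (mem_filter.1 (hB' hy)).2
        · rcases hy with rfl | hy
          · exact absurd hG (mem_filter.1 (hB' hx)).2
          · exact ⟨x, hx, y, hy, hxy, hG⟩)
      exact ⟨B', hB'.trans ((filter_subset _ _).trans sdiff_subset), h5, h6⟩

end Pool.Agent.K3h84.GP
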