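import Mathlib
import Pool.Agent.K3h84.GP.Box2

/-! The number of pairs in a relation without a complete 4-partite part (helper84). -/

set_option autoImplicit false

namespace Pool.Agent.K3h84.GP

open Finset Filter

open Classical in
/-- a vertex of small degree -/
theorem low_degree (t : ℕ) (δ : ℝ) (hδ : 0 < δ) : ∃ n1 : ℕ, ∀ (Bd : ℕ → ℕ → Prop), (∀ x y, Bd x y → Bd y x) →
    ∀ A : Finset ℕ, n1 ≤ A.card →
    (∀ v : Fin 4 → Fin t → ℕ, (∀ i, Function.Injective (v i)) → (∀ i s, v i s ∈ A) →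
      ∃ i j s u, i ≠ j ∧ ¬ Bd (v i s) (v j u)) →
    ∃ x ∈ A, (((A.erase x).filter (fun y => Bd x y)).card : ℝ) ≤ (2 / 3 + δ) * A.card := by
  obtain ⟨n1, hn1⟩ := eventually_atTop.1
    (SimpleGraph.eventually_completeEquipartiteGraph_isContained_of_minDegree hδ 3 t)
  refine ⟨n1 + 1, fun Bd hsym A hA hno => ?_⟩
  by_contra hcon
  push Not at hcon
  obtain ⟨n, hn⟩ : ∃ n, n = A.card := ⟨_, rfl⟩
  obtain ⟨e, he⟩ : ∃ e : Fin n → ℕ, Function.Injective e ∧ univ.image e = A := by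
    subst hn
    refine ⟨fun i => A.equivFin.symm i, fun i j h => A.equivFin.symm.injective (Subtype.ext h), ?_⟩
    ext x
    rw [mem_image]
    constructor
    · rintro ⟨i, -, rfl⟩
      exact (A.equivFin.symm i).2
    · intro hx
      exact ⟨A.equivFin ⟨x, hx⟩, mem_univ _, by simp⟩
  obtain ⟨hinj, him⟩ := he
  have hmem : ∀ i, e i ∈ A := fun i => him ▸ mem_image_of_mem e (mem_univ i)
  obtain ⟨G, hG⟩ : ∃ G : SimpleGraph (Fin n), ∀ i j, G.Adj i j ↔ i ≠ j ∧ Bd (e i) (e j) :=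
    ⟨{ Adj := fun i j => i ≠ j ∧ Bd (e i) (e j)
       symm := ⟨fun i j h => ⟨h.1.symm, hsym _ _ h.2⟩⟩
       loopless := ⟨fun i h => h.1 rfl⟩ }, fun i j => Iff.rfl⟩
  have hdeg : ∀ i, G.degree i = ((A.erase (e i)).filter (fun y => Bd (e i) y)).card := by
    intro i
    rw [← SimpleGraph.card_neighborFinset_eq_degree]
    refine card_bij (fun j _ => e j) ?_ ?_ ?_
    · intro j hj
      rw [SimpleGraph.mem_neighborFinset, hG] at hj
      rw [mem_filter, mem_erase]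
      exact ⟨⟨fun h => hj.1 (hinj h.symm), hmem j⟩, hj.2⟩
    · intro j _ j' _ h
      exact hinj h
    · intro y hy
      rw [mem_filter, mem_erase, ← him, mem_image] at hy
      obtain ⟨⟨h1, j, -, rfl⟩, h2⟩ := hy
      refine ⟨j, ?_, rfl⟩
      rw [SimpleGraph.mem_neighborFinset, hG]
      exact ⟨fun h => h1 (by rw [h]), h2⟩
  have hn0 : 0 < n := by omega
  haveI : Nonempty (Fin n) := ⟨⟨0, hn0⟩⟩
  have hmin : (G.minDegree : ℝ) ≥ (1 - 1 / (3 : ℕ) + δ) * n := by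
    obtain ⟨i, hi⟩ := G.exists_minimal_degree_vertex
    have h1 := hcon (e i) (hmem i)
    rw [← hdeg, ← hn] at h1
    rw [hi]
    push_cast
    have e1 : (1 - 1 / 3 + δ : ℝ) = 2 / 3 + δ := by ring
    rw [e1]
    exact h1.le
  obtain ⟨f⟩ := hn1 n (by omega) hmin
  obtain ⟨i, j, s, u, hij, hb⟩ := hno (fun i s => e (f (i, s))) (fun i s s' h => by
    have h1 := f.injective (hinj h)
    exact (Prod.mk.inj h1).2) (fun i s => hmem _)
  have h1 : G.Adj (f (i, s)) (f (j, u)) := f.toHom.map_rel' (by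
    show (i, s).1 ≠ (j, u).1
    exact hij)
  exact hb ((hG _ _).1 h1).2

open Classical in
/-- the number of bad pairs -/
theorem few_bad (t : ℕ) (ε : ℝ) (hε : 0 < ε) : ∃ n0 : ℕ, ∀ (Bd : ℕ → ℕ → Prop), (∀ x y, Bd x y → Bd y x) →
    ∀ A : Finset ℕ, n0 ≤ A.card →
    (∀ v : Fin 4 → Fin t → ℕ, (∀ i, Function.Injective (v i)) → (∀ i s, v i s ∈ A) →
      ∃ i j s u, i ≠ j ∧ ¬ Bd (v i s) (v j u)) →
    (((A ×ˢ A).filter (fun p => p.1 < p.2 ∧ Bd p.1 p.2)).card : ℝ) ≤ (1 / 3 + ε) * (A.card : ℝ) ^ 2 := by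
  obtain ⟨n1, hn1⟩ := low_degree t ε hε
  have hkey : ∀ (Bd : ℕ → ℕ → Prop), (∀ x y, Bd x y → Bd y x) → ∀ n : ℕ, ∀ A : Finset ℕ, A.card = n →
      (∀ v : Fin 4 → Fin t → ℕ, (∀ i, Function.Injective (v i)) → (∀ i s, v i s ∈ A) →
        ∃ i j s u, i ≠ j ∧ ¬ Bd (v i s) (v j u)) →
      (((A ×ˢ A).filter (fun p => p.1 < p.2 ∧ Bd p.1 p.2)).card : ℝ) ≤
        (2 / 3 + ε) * (n * (n + 1) / 2) + (n1 : ℝ) ^ 2 := by
    intro Bd hsym n
    induction n with
    | zero =>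
      intro A hA _
      rw [card_eq_zero] at hA
      subst hA
      rw [empty_product, filter_empty, card_empty]
      push_cast
      nlinarith [sq_nonneg (n1 : ℝ)]
    | succ n ih =>
      intro A hA hno
      rcases Nat.lt_or_ge (n + 1) n1 with hlt | hge
      · have h1 : ((A ×ˢ A).filter (fun p => p.1 < p.2 ∧ Bd p.1 p.2)).card ≤ n1 ^ 2 := by
          refine (card_filter_le _ _).trans ?_
          rw [card_product, hA, sq]
          exact Nat.mul_le_mul hlt.le hlt.le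
        have h2 : (((A ×ˢ A).filter (fun p => p.1 < p.2 ∧ Bd p.1 p.2)).card : ℝ) ≤ (n1 : ℝ) ^ 2 := by
          exact_mod_cast h1
        have h3 : 0 ≤ (2 / 3 + ε) * (((n + 1 : ℕ) : ℝ) * (((n + 1 : ℕ) : ℝ) + 1) / 2) := by positivity
        linarith
      · obtain ⟨x, hx, hxd⟩ := hn1 Bd hsym A (by omega) hno
        have h1 := ih (A.erase x) (by rw [card_erase_of_mem hx, hA]; rfl)
          (fun v hv hvA => hno v hv (fun i s => mem_of_mem_erase (hvA i s)))
        have h2 : (A ×ˢ A).filter (fun p => p.1 < p.2 ∧ Bd p.1 p.2) ⊆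
            ((A.erase x ×ˢ A.erase x).filter (fun p => p.1 < p.2 ∧ Bd p.1 p.2)) ∪
            ((A.erase x).filter (fun y => Bd x y)).image (fun y => (min x y, max x y)) := by
          rintro ⟨a, b⟩ hp
          rw [mem_filter, mem_product] at hp
          obtain ⟨⟨ha, hb⟩, hab, hB⟩ := hp
          simp only at ha hb hab hB
          rw [mem_union]
          by_cases hax : a = x
          · right
            subst hax
            rw [mem_image]
            refine ⟨b, mem_filter.2 ⟨mem_erase.2 ⟨hab.ne', hb⟩, hB⟩, ?_⟩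
            rw [min_eq_left hab.le, max_eq_right hab.le]
          · by_cases hbx : b = x
            · right
              subst hbx
              rw [mem_image]
              refine ⟨a, mem_filter.2 ⟨mem_erase.2 ⟨hab.ne, ha⟩, hsym _ _ hB⟩, ?_⟩
              rw [min_eq_right hab.le, max_eq_left hab.le]
            · left
              rw [mem_filter, mem_product]
              exact ⟨⟨mem_erase.2 ⟨hax, ha⟩, mem_erase.2 ⟨hbx, hb⟩⟩, hab, hB⟩
        have h3 := (card_le_card h2).trans ((card_union_le _ _).trans (Nat.add_le_add_left card_image_le _))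
        have h4 : (((A ×ˢ A).filter (fun p => p.1 < p.2 ∧ Bd p.1 p.2)).card : ℝ) ≤
            (((A.erase x ×ˢ A.erase x).filter (fun p => p.1 < p.2 ∧ Bd p.1 p.2)).card : ℝ) +
            (((A.erase x).filter (fun y => Bd x y)).card : ℝ) := by exact_mod_cast h3
        rw [hA] at hxd
        push_cast at hxd ⊢
        nlinarith
  refine ⟨⌈(n1 : ℝ) ^ 2 / (ε / 4)⌉₊ + ⌈(1 + ε) / (ε / 4)⌉₊ + 1, fun Bd hsym A hA hno => ?_⟩
  have h1 := hkey Bd hsym A.card A rfl hno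
  refine h1.trans ?_
  have hn : ((⌈(n1 : ℝ) ^ 2 / (ε / 4)⌉₊ : ℝ) + (⌈(1 + ε) / (ε / 4)⌉₊ : ℝ) + 1) ≤ (A.card : ℝ) := by
    exact_mod_cast hA
  have h2 := Nat.le_ceil ((n1 : ℝ) ^ 2 / (ε / 4))
  have h3 := Nat.le_ceil ((1 + ε) / (ε / 4))
  have h4 : (n1 : ℝ) ^ 2 ≤ ε / 4 * A.card := by
    have h5 : (n1 : ℝ) ^ 2 / (ε / 4) ≤ A.card := by
      have : (0 : ℝ) ≤ (⌈(1 + ε) / (ε / 4)⌉₊ : ℝ) := Nat.cast_nonneg _
      linarith
    rw [div_le_iff₀ (by positivity)] at h5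
    linarith
  have h6 : 1 + ε ≤ ε / 4 * A.card := by
    have h5 : (1 + ε) / (ε / 4) ≤ A.card := by
      have : (0 : ℝ) ≤ (⌈(n1 : ℝ) ^ 2 / (ε / 4)⌉₊ : ℝ) := Nat.cast_nonneg _
      linarith
    rw [div_le_iff₀ (by positivity)] at h5
    linarith
  have h7 : (1 : ℝ) ≤ A.card := by
    have : (0 : ℝ) ≤ (⌈(n1 : ℝ) ^ 2 / (ε / 4)⌉₊ : ℝ) := Nat.cast_nonneg _
    have : (0 : ℝ) ≤ (⌈(1 + ε) / (ε / 4)⌉₊ : ℝ) := Nat.cast_nonneg _
    linarith
  nlinarith

end Pool.Agent.K3h84.GP
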