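import Mathlib
import Pool.Agent.H947R3.GM.Cls

/-! Admissible classes of shifts in arbitrary sets (helper84). -/

set_option autoImplicit false

namespace Pool.Agent.K3h84.GP

open Finset Pool.Agent.H947R3.GM

/-- `K` elements of a set in one class modulo `M` -/
theorem pick_one (K M : ℕ) (hM : 1 ≤ M) (A : Finset ℕ) (hA : K * M ≤ A.card) :
    ∃ h : Fin K → ℕ, Function.Injective h ∧ (∀ i, h i ∈ A) ∧ ∀ i j, h i ≡ h j [MOD M] := by
  obtain ⟨c, -, hc⟩ := exists_le_card_fiber_of_mul_le_card_of_maps_to (s := A) (t := range M)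
    (f := fun x => x % M) (n := K) (fun x _ => mem_range.2 (Nat.mod_lt x hM)) ⟨0, mem_range.2 hM⟩ (by
      rw [card_range, mul_comm]; exact hA)
  obtain ⟨B, hB, hBc⟩ := exists_subset_card_eq hc
  refine ⟨B.orderEmbOfFin hBc, (B.orderEmbOfFin hBc).injective, fun i => ?_, fun i j => ?_⟩
  · exact (mem_filter.1 (hB (B.orderEmbOfFin_mem hBc i))).1
  · have h1 := (mem_filter.1 (hB (B.orderEmbOfFin_mem hBc i))).2
    have h2 := (mem_filter.1 (hB (B.orderEmbOfFin_mem hBc j))).2
    exact h1.trans h2.symm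

/-- disjoint sets of `K` elements, each in one class modulo `M` -/
theorem pick (K M : ℕ) (hM : 1 ≤ M) : ∀ (r : ℕ) (F : Finset ℕ) (A : Fin r → Finset ℕ),
    (∀ g, F.card + r * (K * M) ≤ (A g).card) →
    ∃ H : Fin r → Fin K → ℕ, (∀ g i, H g i ∈ A g) ∧ (∀ g i, H g i ∉ F) ∧
      Function.Injective (fun x : Fin r × Fin K => H x.1 x.2) ∧ ∀ g i j, H g i ≡ H g j [MOD M] := by
  intro r
  induction r with
  | zero =>
    intro F A _
    exact ⟨fun g => g.elim0, fun g => g.elim0, fun g => g.elim0, fun x => x.1.elim0, fun g => g.elim0⟩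
  | succ r ih =>
    intro F A hA
    have h0 : K * M ≤ (A 0 \ F).card := by
      have h1 := hA 0
      have h2 := le_card_sdiff F (A 0)
      have h3 : (r + 1) * (K * M) = r * (K * M) + K * M := by ring
      omega
    obtain ⟨h, hinj, hmem, hmod⟩ := pick_one K M hM (A 0 \ F) h0
    obtain ⟨H, h1, h2, h3, h4⟩ := ih (F ∪ univ.image h) (fun g => A g.succ) (fun g => by
      have h5 := hA g.succ
      have h6 : (F ∪ univ.image h).card ≤ F.card + K := by
        refine (card_union_le _ _).trans (Nat.add_le_add_left (card_image_le.trans ?_) _)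
        rw [card_univ, Fintype.card_fin]
      have h7 : (r + 1) * (K * M) = r * (K * M) + K * M := by ring
      have h8 : K ≤ K * M := Nat.le_mul_of_pos_right K hM
      omega)
    refine ⟨Fin.cons h H, ?_, ?_, ?_, ?_⟩
    · intro g i
      refine Fin.cases ?_ (fun g' => ?_) g
      · exact (mem_sdiff.1 (hmem i)).1
      · exact h1 g' i
    · intro g i
      refine Fin.cases ?_ (fun g' => ?_) g
      · exact (mem_sdiff.1 (hmem i)).2
      · exact fun hF => h2 g' i (mem_union_left _ hF)
    · rintro ⟨g, i⟩ ⟨g', i'⟩ hxy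
      simp only at hxy
      revert hxy
      refine Fin.cases ?_ (fun g₁ => ?_) g
      · refine Fin.cases ?_ (fun g₂ => ?_) g'
        · intro hxy
          rw [Fin.cons_zero] at hxy
          rw [hinj hxy]
        · intro hxy
          rw [Fin.cons_zero, Fin.cons_succ] at hxy
          exact absurd (mem_union_right F (mem_image.2 ⟨i, mem_univ _, hxy⟩)) (h2 g₂ i')
      · refine Fin.cases ?_ (fun g₂ => ?_) g'
        · intro hxy
          rw [Fin.cons_zero, Fin.cons_succ] at hxy
          exact absurd (mem_union_right F (mem_image.2 ⟨i', mem_univ _, hxy.symm⟩)) (h2 g₁ i)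
        · intro hxy
          rw [Fin.cons_succ, Fin.cons_succ] at hxy
          have h5 := h3 (a₁ := (g₁, i)) (a₂ := (g₂, i')) hxy
          rw [Prod.mk.injEq] at h5
          rw [h5.1, h5.2]
    · intro g i j
      refine Fin.cases ?_ (fun g' => ?_) g
      · exact hmod i j
      · exact h4 g' i j

/-- the classes are admissible -/
theorem adm_pick (K N : ℕ) (h2 : 2 ∣ N) (H : Fin 4 → Fin K → ℕ)
    (hinj : Function.Injective (fun x : Fin 4 × Fin K => H x.1 x.2))
    (hmod : ∀ g i j, H g i ≡ H g j [MOD (4 * K).factorial])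
    (h3 : 3 ∣ N ∨ ∃ r : ℤ, ∀ g i, ¬ (3 : ℤ) ∣ r + H g i) : AdmN N H := by
  refine ⟨hinj, fun p hp hpN => ?_⟩
  have hp2 : p ≠ 2 := fun h => hpN (h ▸ h2)
  by_cases hp3 : p = 3
  · subst hp3
    exact h3.resolve_left hpN
  have hp5 : 5 ≤ p := by
    have h1 := hp.two_le
    rcases Nat.lt_or_ge p 5 with h | h
    · exfalso
      interval_cases p
      · exact hp2 rfl
      · exact hp3 rfl
      · norm_num at hp
    · exact h
  haveI : Fact p.Prime := ⟨hp⟩
  obtain ⟨S, hS⟩ : ∃ S : Finset (ZMod p), S = univ.image (fun x : Fin 4 × Fin K => -(H x.1 x.2 : ZMod p)) :=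
    ⟨_, rfl⟩
  have hSc : S.card < p := by
    by_cases hpK : p ≤ 4 * K
    · rcases Nat.eq_zero_or_pos K with hK | hK
      · omega
      · have h4 : S ⊆ univ.image (fun g : Fin 4 => -(H g ⟨0, hK⟩ : ZMod p)) := by
          intro x hx
          rw [hS, mem_image] at hx
          obtain ⟨⟨g, i⟩, -, rfl⟩ := hx
          rw [mem_image]
          refine ⟨g, mem_univ _, ?_⟩
          have h5 : H g ⟨0, hK⟩ ≡ H g i [MOD p] :=
            (hmod g ⟨0, hK⟩ i).of_dvd (Nat.dvd_factorial hp.pos hpK)
          rw [(ZMod.natCast_eq_natCast_iff _ _ _).2 h5]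
        have h5 := (card_le_card h4).trans card_image_le
        rw [card_univ, Fintype.card_fin] at h5
        omega
    · have h4 : S.card ≤ 4 * K := by
        rw [hS]
        refine card_image_le.trans (le_of_eq ?_)
        rw [card_univ, Fintype.card_prod, Fintype.card_fin, Fintype.card_fin]
      omega
  obtain ⟨v, hv⟩ : ∃ v, v ∉ S := by
    by_contra hcon
    push Not at hcon
    have : S = univ := eq_univ_iff_forall.2 hcon
    rw [this, card_univ, ZMod.card] at hSc
    exact lt_irrefl _ hSc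
  refine ⟨(v.val : ℤ), fun g i hdvd => hv ?_⟩
  rw [hS, mem_image]
  refine ⟨(g, i), mem_univ _, ?_⟩
  have h4 : (((v.val : ℤ) + (H g i : ℤ) : ℤ) : ZMod p) = 0 := (ZMod.intCast_zmod_eq_zero_iff_dvd _ _).2 hdvd
  push_cast at h4
  rw [ZMod.natCast_zmod_val] at h4
  linear_combination -h4

end Pool.Agent.K3h84.GP
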