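import Mathlib
import Pool.Agent.K3h84.GP.Pick
import Pool.Agent.K3h84.GP.ES

/-! Gaps between consecutive primes among the differences of arbitrary sets (helper84). -/

set_option autoImplicit false

namespace Pool.Agent.K3h84.GP

open Finset Filter Topology

/-- condition at the prime 3 -/
def At3 (N : ℕ) (A : Set ℕ) : Prop := 3 ∣ N ∨ ∃ r : ℤ, ∀ x ∈ A, ¬ (3 : ℤ) ∣ r + x

open Classical in
/-- power saving -/
theorem saving {D : Set ℕ} {K N : ℕ} (hK : 1 ≤ K)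
    (h4 : ∀ A : Fin 4 → Finset ℕ, At3 N {x | ∃ g, x ∈ A g} → (∀ g, K ≤ (A g).card) →
      ∃ g g', g ≠ g' ∧ ∃ x ∈ A g, ∃ y ∈ A g', x < y ∧ y - x ∈ D)
    (n : ℕ) (hn : 1 ≤ n) (A : Fin 4 → Finset ℕ) (hA : ∀ g, n ≤ (A g).card) (h3 : At3 N {x | ∃ g, x ∈ A g}) :
    (((Fintype.piFinset A).filter (fun x => ¬ ∃ i j, x i < x j ∧ x j - x i ∈ D)).card : ℝ) ≤
      ((4 * K ^ 2 : ℕ) : ℝ) * (∏ g, ((A g).card : ℝ)) / (n : ℝ) ^ (1 / ((K ^ 4 : ℕ) : ℝ)) := by
  refine boxes_card 4 K hK (by norm_num) n hn A hA _ (filter_subset _ _) (fun v hv hvA => ?_)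
  obtain ⟨g, g', hgg, x, hx, y, hy, hxy, hD⟩ := h4 (fun g => univ.image (v g)) (by
    refine h3.imp_right fun ⟨r, hr⟩ => ⟨r, fun x hx => ?_⟩
    obtain ⟨g, hg⟩ := hx
    rw [mem_image] at hg
    obtain ⟨s, -, rfl⟩ := hg
    exact hr _ ⟨g, hvA g s⟩) (fun g => by
      rw [card_image_of_injective _ (hv g), card_univ, Fintype.card_fin])
  rw [mem_image] at hx hy
  obtain ⟨s, -, rfl⟩ := hx
  obtain ⟨u, -, rfl⟩ := hy
  refine ⟨fun i => if i = g then s else u, fun hmem => (mem_filter.1 hmem).2 ⟨g, g', ?_⟩⟩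
  simp only [if_true, if_neg hgg.symm]
  exact ⟨hxy, hD⟩

open Classical in
/-- the proportion of the pairs -/
theorem third (K : ℕ) (ε : ℝ) (hε : 0 < ε) : ∃ n0 : ℕ, ∀ (D : Set ℕ) (N : ℕ),
    (∀ A : Fin 4 → Finset ℕ, At3 N {x | ∃ g, x ∈ A g} → (∀ g, K ≤ (A g).card) →
      ∃ g g', g ≠ g' ∧ ∃ x ∈ A g, ∃ y ∈ A g', x < y ∧ y - x ∈ D) →
    ∀ A : Finset ℕ, n0 ≤ A.card → At3 N A →
    (1 / 3 - ε) * (A.card.choose 2 : ℝ) ≤
      (((A ×ˢ A).filter (fun p => p.1 < p.2 ∧ p.2 - p.1 ∈ D)).card : ℝ) := by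
  obtain ⟨n0, hn0⟩ := few_bad K (ε / 4) (by positivity)
  refine ⟨n0 + ⌈2 / ε⌉₊ + 1, fun D N h4 A hA h3 => ?_⟩
  have h1 := hn0 (fun x y => ¬ ((x < y ∧ y - x ∈ D) ∨ (y < x ∧ x - y ∈ D)))
    (fun x y h hc => h (hc.symm)) A (by omega) (fun v hv hvA => by
      obtain ⟨g, g', hgg, x, hx, y, hy, hxy, hD⟩ := h4 (fun g => univ.image (v g)) (by
        refine h3.imp_right fun ⟨r, hr⟩ => ⟨r, fun x hx => ?_⟩
        obtain ⟨g, hg⟩ := hx
        rw [mem_image] at hg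
        obtain ⟨s, -, rfl⟩ := hg
        exact hr _ (mem_coe.2 (hvA g s))) (fun g => by
          rw [card_image_of_injective _ (hv g), card_univ, Fintype.card_fin])
      rw [mem_image] at hx hy
      obtain ⟨s, -, rfl⟩ := hx
      obtain ⟨u, -, rfl⟩ := hy
      exact ⟨g, g', s, u, hgg, fun h => h (Or.inl ⟨hxy, hD⟩)⟩)
  have h1' : (((A ×ˢ A).filter (fun p => p.1 < p.2 ∧
        ¬ ((p.1 < p.2 ∧ p.2 - p.1 ∈ D) ∨ (p.2 < p.1 ∧ p.1 - p.2 ∈ D)))).card : ℝ) ≤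
      (1 / 3 + ε / 4) * (A.card : ℝ) ^ 2 := by
    convert h1
  obtain ⟨P, hP⟩ : ∃ P, P = (A ×ˢ A).filter (fun p => p.1 < p.2) := ⟨_, rfl⟩
  have hsplit : P.card ≤ ((A ×ˢ A).filter (fun p => p.1 < p.2 ∧ p.2 - p.1 ∈ D)).card +
      ((A ×ˢ A).filter (fun p => p.1 < p.2 ∧
        ¬ ((p.1 < p.2 ∧ p.2 - p.1 ∈ D) ∨ (p.2 < p.1 ∧ p.1 - p.2 ∈ D)))).card := by
    refine (card_le_card ?_).trans (card_union_le _ _)
    intro p hp
    rw [hP, mem_filter] at hp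
    rw [mem_union, mem_filter, mem_filter]
    by_cases hD : p.2 - p.1 ∈ D
    · exact Or.inl ⟨hp.1, hp.2, hD⟩
    · refine Or.inr ⟨hp.1, hp.2, ?_⟩
      rintro (h | h)
      · exact hD h.2
      · exact absurd h.1 (not_lt.2 hp.2.le)
  have hPc : A.card ^ 2 ≤ 2 * P.card + A.card := by
    have e1 : (A ×ˢ A) = P ∪ ((A ×ˢ A).filter (fun p => p.2 < p.1) ∪ (A ×ˢ A).filter (fun p => p.1 = p.2)) := by
      ext p
      rw [hP, mem_union, mem_union, mem_filter, mem_filter, mem_filter]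
      constructor
      · intro hp
        rcases lt_trichotomy p.1 p.2 with h | h | h
        · exact Or.inl ⟨hp, h⟩
        · exact Or.inr (Or.inr ⟨hp, h⟩)
        · exact Or.inr (Or.inl ⟨hp, h⟩)
      · rintro (h | h | h) <;> exact h.1
    have e2 : ((A ×ˢ A).filter (fun p => p.2 < p.1)).card ≤ P.card := by
      refine card_le_card_of_injOn (fun p => (p.2, p.1)) ?_ ?_
      · intro p hp
        rw [mem_coe, mem_filter, mem_product] at hp
        rw [mem_coe, hP, mem_filter, mem_product]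
        exact ⟨⟨hp.1.2, hp.1.1⟩, hp.2⟩
      · intro p _ q _ h
        rw [Prod.mk.injEq] at h
        exact Prod.ext h.2 h.1
    have e3 : ((A ×ˢ A).filter (fun p => p.1 = p.2)).card ≤ A.card := by
      refine card_le_card_of_injOn (fun p => p.1) ?_ ?_
      · intro p hp
        rw [mem_coe, mem_filter, mem_product] at hp
        exact hp.1.1
      · intro p hp q hq h
        rw [mem_coe, mem_filter] at hp hq
        exact Prod.ext h (by rw [← hp.2, ← hq.2]; exact h)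
    have e4 : (A ×ˢ A).card = A.card ^ 2 := by rw [card_product, sq]
    have e5 : (A ×ˢ A).card ≤ P.card + (((A ×ˢ A).filter (fun p => p.2 < p.1)).card +
        ((A ×ˢ A).filter (fun p => p.1 = p.2)).card) := by
      conv_lhs => rw [e1]
      exact (card_union_le _ _).trans (Nat.add_le_add_left (card_union_le _ _) _)
    omega
  have hc2 : ((A.card.choose 2 : ℕ) : ℝ) ≤ (A.card : ℝ) ^ 2 / 2 := by
    rw [Nat.cast_choose_two]
    have : (0 : ℝ) ≤ A.card := Nat.cast_nonneg _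
    nlinarith
  have hn : 2 / ε ≤ (A.card : ℝ) := by
    have h5 := Nat.le_ceil (2 / ε)
    have h6 : ((⌈2 / ε⌉₊ : ℕ) : ℝ) ≤ (A.card : ℝ) := by exact_mod_cast (by omega : ⌈2 / ε⌉₊ ≤ A.card)
    linarith
  rw [div_le_iff₀ hε] at hn
  have h6 : (P.card : ℝ) ≤ (((A ×ˢ A).filter (fun p => p.1 < p.2 ∧ p.2 - p.1 ∈ D)).card : ℝ) +
      (((A ×ˢ A).filter (fun p => p.1 < p.2 ∧
        ¬ ((p.1 < p.2 ∧ p.2 - p.1 ∈ D) ∨ (p.2 < p.1 ∧ p.1 - p.2 ∈ D)))).card : ℝ) := by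
    exact_mod_cast hsplit
  have h7 : (A.card : ℝ) ^ 2 ≤ 2 * P.card + A.card := by exact_mod_cast hPc
  rcases le_or_gt ((1 : ℝ) / 3 - ε) 0 with h8 | h8
  · have h9 : ((1 : ℝ) / 3 - ε) * (A.card.choose 2 : ℝ) ≤ 0 :=
      mul_nonpos_of_nonpos_of_nonneg h8 (Nat.cast_nonneg _)
    exact h9.trans (Nat.cast_nonneg _)
  · have h9 : ((1 : ℝ) / 3 - ε) * (A.card.choose 2 : ℝ) ≤ (1 / 3 - ε) * ((A.card : ℝ) ^ 2 / 2) :=
      mul_le_mul_of_nonneg_left hc2 h8.le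
    have h10 : (0 : ℝ) ≤ A.card := Nat.cast_nonneg _
    have h11 : 0 ≤ (A.card : ℝ) * ((A.card : ℝ) * ε - 2) := mul_nonneg h10 (sub_nonneg.2 hn)
    refine h9.trans ?_
    have h12 : (1 / 3 - ε) * ((A.card : ℝ) ^ 2 / 2) = (A.card : ℝ) ^ 2 / 2 - (1 / 3 + ε / 4) * (A.card : ℝ) ^ 2 -
        A.card / 2 - (A.card : ℝ) * ((A.card : ℝ) * ε - 2) / 4 := by ring
    linarith

open Classical in
/-- large sets all of whose differences are gaps -/
theorem cliques {D : Set ℕ} {K : ℕ} (hK : 1 ≤ K) (A : Finset ℕ)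
    (h : ∀ B ⊆ A, K ≤ B.card → ∃ x ∈ B, ∃ y ∈ B, x < y ∧ y - x ∈ D) :
    ∃ B ⊆ A, A.card ≤ (B.card + 1) ^ (K - 1) ∧ ∀ x ∈ B, ∀ y ∈ B, x < y → y - x ∈ D := by
  obtain ⟨Cl, hCl⟩ : ∃ Cl : Finset ℕ → Prop, ∀ B, Cl B ↔ ∀ x ∈ B, ∀ y ∈ B, x < y → y - x ∈ D :=
    ⟨_, fun _ => Iff.rfl⟩
  obtain ⟨B, hB, hmax⟩ := exists_max_image (A.powerset.filter Cl)
    card ⟨∅, mem_filter.2 ⟨empty_mem_powerset A, (hCl ∅).2 fun x hx => absurd hx (notMem_empty x)⟩⟩
  rw [mem_filter, mem_powerset, hCl] at hB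
  refine ⟨B, hB.1, ?_, hB.2⟩
  by_contra hcon
  push Not at hcon
  obtain ⟨B', hB', hc, hg⟩ := ramsey (fun x y => (x < y ∧ y - x ∈ D) ∨ (y < x ∧ x - y ∈ D))
    (fun x y h => h.symm) (B.card + 1) (K - 1) A hcon.le (fun B' hB'A hc => by
      obtain ⟨x, hx, y, hy, hxy, hD⟩ := h B' hB'A (by omega)
      exact ⟨x, hx, y, hy, hxy.ne, Or.inl ⟨hxy, hD⟩⟩)
  have h1 := hmax B' (by
    rw [mem_filter, mem_powerset, hCl]
    refine ⟨hB', fun x hx y hy hxy => ?_⟩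
    rcases hg x hx y hy hxy.ne with h | h
    · exact h.2
    · exact absurd h.1 (not_lt.2 hxy.le))
  omega

/-- infinite sets -/
theorem infinite_clique {D : Set ℕ} : ∀ (K : ℕ) (X : Set ℕ), X.Infinite →
    (∀ B : Finset ℕ, (∀ x ∈ B, x ∈ X) → K ≤ B.card → ∃ x ∈ B, ∃ y ∈ B, x < y ∧ y - x ∈ D) →
    ∃ Y ⊆ X, Y.Infinite ∧ ∀ x ∈ Y, ∀ y ∈ Y, x < y → y - x ∈ D := by
  classical
  intro K
  induction K with
  | zero =>
    intro X _ h
    obtain ⟨x, hx, -⟩ := h ∅ (fun x hx => absurd hx (notMem_empty x)) (Nat.zero_le _)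
    exact absurd hx (notMem_empty x)
  | succ K ih =>
    intro X hX h
    by_cases hcase : ∃ x ∈ X, {y | y ∈ X ∧ x < y ∧ y - x ∉ D}.Infinite
    · obtain ⟨x, hx, hinf⟩ := hcase
      obtain ⟨Y, hY, hYi, hYD⟩ := ih _ hinf (fun B hB hc => by
        have hxB : x ∉ B := fun hxB => absurd (hB x hxB).2.1 (lt_irrefl x)
        obtain ⟨y, hy, z, hz, hyz, hD⟩ := h (insert x B) (fun w hw => by
          rw [mem_insert] at hw
          rcases hw with rfl | hw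
          · exact hx
          · exact (hB w hw).1) (by rw [card_insert_of_notMem hxB]; omega)
        rw [mem_insert] at hy hz
        rcases hy with rfl | hy
        · rcases hz with rfl | hz
          · exact absurd hyz (lt_irrefl _)
          · exact absurd hD (hB z hz).2.2
        · rcases hz with rfl | hz
          · exact absurd ((hB y hy).2.1.trans hyz) (lt_irrefl _)
          · exact ⟨y, hy, z, hz, hyz, hD⟩)
      exact ⟨Y, hY.trans (fun y hy => hy.1), hYi, hYD⟩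
    · push Not at hcase
      obtain ⟨f, hf1, hf2⟩ := exists_seq_of_forall_finset_exists (fun x => x ∈ X)
        (fun x y => x < y ∧ y - x ∈ D) (fun s hs => by
          have h1 : (⋃ x ∈ s, {y | y ∈ X ∧ x < y ∧ y - x ∉ D}).Finite := by
            refine Set.Finite.biUnion s.finite_toSet (fun x hx => ?_)
            exact hcase x (hs x hx)
          have h2 : (X \ ((⋃ x ∈ s, {y | y ∈ X ∧ x < y ∧ y - x ∉ D}) ∪ Set.Iic (s.sup id))).Infinite :=
            hX.sdiff (h1.union (Set.finite_Iic _))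
          obtain ⟨y, hy⟩ := h2.nonempty
          refine ⟨y, hy.1, fun x hx => ?_⟩
          have hxy : x < y := by
            by_contra hcon
            push Not at hcon
            refine hy.2 (Or.inr ?_)
            exact hcon.trans (le_sup (f := id) hx)
          refine ⟨hxy, ?_⟩
          by_contra hD
          exact hy.2 (Or.inl (Set.mem_biUnion hx ⟨hy.1, hxy, hD⟩)))
      have hmono : StrictMono f := fun m n hmn => (hf2 m n hmn).1
      refine ⟨Set.range f, ?_, Set.infinite_range_of_injective hmono.injective, ?_⟩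
      · rintro _ ⟨n, rfl⟩
        exact hf1 n
      · rintro _ ⟨n, rfl⟩ _ ⟨k, rfl⟩ hlt
        exact (hf2 n k (hmono.lt_iff_lt.1 hlt)).2

end Pool.Agent.K3h84.GP
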