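import Mathlib
import Pool.Agent.Y877.Consec
import Pool.Agent.K3h84.GP.Gen

/-! Gaps between consecutive primes among the differences of four sets (helper84). -/

set_option autoImplicit false

namespace Pool.Agent.K3h84.GP

open Finset Filter Topology
open Pool.Agent.W59.GB Pool.Agent.H947R3.GM Pool.Agent.H732R3.BigQ Pool.Agent.W25.UB

/-- four sets -/
theorem fourSets (hCB : St_CB) : ∃ K : ℕ, 1 ≤ K ∧ ∀ N a : ℕ, 2 ∣ N → Squarefree N → a.Coprime N →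
    ∀ A : Fin 4 → Finset ℕ, At3 N {x | ∃ g, x ∈ A g} → (∀ g, K ≤ (A g).card) →
    ∃ g g', g ≠ g' ∧ ∃ x ∈ A g, ∃ y ∈ A g', x < y ∧ y - x ∈ GapB N a := by
  obtain ⟨K, hK, h4⟩ := Pool.Agent.Y877.four hCB
  refine ⟨4 * (K * (4 * K).factorial), ?_, fun N a h2 hsq ha A h3 hA => ?_⟩
  · have := Nat.factorial_pos (4 * K)
    have : 1 ≤ K * (4 * K).factorial := Nat.mul_pos hK this
    omega
  obtain ⟨H, h5, -, h6, h7⟩ := pick K (4 * K).factorial (Nat.factorial_pos _) 4 ∅ A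
    (fun g => by rw [card_empty, zero_add]; exact hA g)
  obtain ⟨g, g', i, i', hg, hlt, hd⟩ := h4 N a (Nat.pos_of_ne_zero hsq.ne_zero) h2 hsq ha H
    (adm_pick K N h2 H h6 h7 (h3.imp_right fun ⟨r, hr⟩ => ⟨r, fun g i => hr _ ⟨g, h5 g i⟩⟩))
  exact ⟨g, g', hg, H g i, h5 g i, H g' i', h5 g' i', hlt, hd⟩

end Pool.Agent.K3h84.GP
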