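import Mathlib

/-! The sequence `n ^ γ`, `1 < γ < 2`; the example `6 k, 12 k, 18 k` (helper84). -/

set_option autoImplicit false

namespace Pool.Agent.K3h84.GP

open Finset Filter

theorem pow_inc (γ : ℝ) (h1 : 1 ≤ γ) (n : ℕ) (hn : 1 ≤ n) :
    1 ≤ ((n + 1 : ℕ) : ℝ) ^ γ - (n : ℝ) ^ γ := by
  have hn' : (1 : ℝ) ≤ n := by exact_mod_cast hn
  have hn0 : (0 : ℝ) < n := by linarith
  have h2 := one_add_mul_self_le_rpow_one_add (s := 1 / (n : ℝ)) (by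
    have : (0 : ℝ) ≤ 1 / (n : ℝ) := by positivity
    linarith) h1
  have h3 : ((n + 1 : ℕ) : ℝ) ^ γ = (n : ℝ) ^ γ * (1 + 1 / (n : ℝ)) ^ γ := by
    rw [← Real.mul_rpow hn0.le (by positivity)]
    congr 1
    push_cast
    field_simp
  rw [h3]
  have h4 : (n : ℝ) ^ γ * (1 + γ * (1 / (n : ℝ))) ≤ (n : ℝ) ^ γ * (1 + 1 / (n : ℝ)) ^ γ :=
    mul_le_mul_of_nonneg_left h2 (by positivity)
  have h5 : (n : ℝ) ^ γ * (1 / (n : ℝ)) = (n : ℝ) ^ (γ - 1) := by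
    rw [Real.rpow_sub_one hn0.ne']
    ring
  have h6 : 1 ≤ (n : ℝ) ^ (γ - 1) := Real.one_le_rpow hn' (by linarith)
  have h7 : (n : ℝ) ^ γ * (1 + γ * (1 / (n : ℝ))) = (n : ℝ) ^ γ + γ * ((n : ℝ) ^ γ * (1 / (n : ℝ))) := by ring
  rw [h5] at h7
  nlinarith

theorem pow_sec (γ : ℝ) (h1 : 1 < γ) (h2 : γ < 2) (n : ℕ) (hn : 1 ≤ n) :
    |((n + 2 : ℕ) : ℝ) ^ γ - 2 * ((n + 1 : ℕ) : ℝ) ^ γ + (n : ℝ) ^ γ| ≤ 2 * (n : ℝ) ^ (γ - 2) := by
  have hn' : (1 : ℝ) ≤ n := by exact_mod_cast hn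
  have hn0 : (0 : ℝ) < n := by linarith
  obtain ⟨φ, hφ⟩ : ∃ φ : ℝ → ℝ, φ = fun y => (y + 1) ^ γ - y ^ γ := ⟨_, rfl⟩
  obtain ⟨φ', hφ'⟩ : ∃ φ' : ℝ → ℝ, φ' = fun y => γ * (y + 1) ^ (γ - 1) - γ * y ^ (γ - 1) := ⟨_, rfl⟩
  have hder : ∀ y : ℝ, 0 < y → HasDerivAt φ (φ' y) y := by
    intro y hy
    rw [hφ, hφ']
    have h3 : HasDerivAt (fun y : ℝ => (y + 1) ^ γ) (γ * (y + 1) ^ (γ - 1)) y := by
      have h4 := (hasDerivAt_id y).add_const (1 : ℝ)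
      have h5 := h4.rpow_const (p := γ) (Or.inl (by simp only [id]; linarith))
      simpa using h5
    have h4 : HasDerivAt (fun y : ℝ => y ^ γ) (γ * y ^ (γ - 1)) y :=
      Real.hasDerivAt_rpow_const (Or.inl hy.ne')
    exact h3.sub h4
  obtain ⟨ξ, hξ, hs⟩ := exists_hasDerivAt_eq_slope φ φ' (a := (n : ℝ)) (b := n + 1) (by linarith)
    (fun y hy => (hder y (by have := hy.1; linarith)).continuousAt.continuousWithinAt)
    (fun y hy => hder y (by have := hy.1; linarith))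
  have hξ0 : 0 < ξ := by have := hξ.1; linarith
  have e1 : ((n + 2 : ℕ) : ℝ) ^ γ - 2 * ((n + 1 : ℕ) : ℝ) ^ γ + (n : ℝ) ^ γ = φ' ξ := by
    rw [hs, hφ]
    have e2 : ((n : ℝ) + 1 - n) = 1 := by ring
    rw [e2, div_one]
    push_cast
    have e3 : (n : ℝ) + 1 + 1 = n + 2 := by ring
    simp only [e3]
    ring
  rw [e1, hφ']
  have h3 : ξ ^ (γ - 1) ≤ (ξ + 1) ^ (γ - 1) :=
    Real.rpow_le_rpow hξ0.le (by linarith) (by linarith)
  have h4 : (ξ + 1) ^ (γ - 1) ≤ ξ ^ (γ - 1) + ξ ^ (γ - 2) := by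
    have h5 : (ξ + 1) ^ (γ - 1) = ξ ^ (γ - 1) * (1 + 1 / ξ) ^ (γ - 1) := by
      rw [← Real.mul_rpow hξ0.le (by positivity)]
      congr 1
      field_simp
    have h6 := rpow_one_add_le_one_add_mul_self (s := 1 / ξ) (p := γ - 1) (by
      have : (0 : ℝ) ≤ 1 / ξ := by positivity
      linarith) (by linarith) (by linarith)
    have h7 : ξ ^ (γ - 2) = ξ ^ (γ - 1) * (1 / ξ) := by
      have e4 : γ - 2 = (γ - 1) - 1 := by ring
      rw [e4, Real.rpow_sub_one hξ0.ne']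
      ring
    have h8 : 0 ≤ ξ ^ (γ - 1) := by positivity
    have h9 : 0 ≤ ξ ^ (γ - 1) * (1 / ξ) := by positivity
    rw [h5, h7]
    calc ξ ^ (γ - 1) * (1 + 1 / ξ) ^ (γ - 1) ≤ ξ ^ (γ - 1) * (1 + (γ - 1) * (1 / ξ)) :=
          mul_le_mul_of_nonneg_left h6 h8
      _ = ξ ^ (γ - 1) + (γ - 1) * (ξ ^ (γ - 1) * (1 / ξ)) := by ring
      _ ≤ ξ ^ (γ - 1) + 1 * (ξ ^ (γ - 1) * (1 / ξ)) := by
          have := mul_le_mul_of_nonneg_right (by linarith : γ - 1 ≤ 1) h9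
          linarith
      _ = _ := by ring
  have h5 : ξ ^ (γ - 2) ≤ (n : ℝ) ^ (γ - 2) :=
    Real.rpow_le_rpow_of_nonpos hn0 hξ.1.le (by linarith)
  have h6 : 0 ≤ (n : ℝ) ^ (γ - 2) := by positivity
  show |γ * (ξ + 1) ^ (γ - 1) - γ * ξ ^ (γ - 1)| ≤ _
  rw [abs_of_nonneg (by nlinarith)]
  nlinarith

/-- the second differences of `n ^ γ` tend to `0` -/
theorem pow_sec_small (γ : ℝ) (h1 : 1 < γ) (h2 : γ < 2) (η : ℝ) (hη : 0 < η) : ∃ n₀ : ℕ, 1 ≤ n₀ ∧ ∀ n ≥ n₀,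
    |((n + 2 : ℕ) : ℝ) ^ γ - 2 * ((n + 1 : ℕ) : ℝ) ^ γ + (n : ℝ) ^ γ| ≤ η := by
  have h3 : Tendsto (fun n : ℕ => 2 * (n : ℝ) ^ (γ - 2)) atTop (nhds 0) := by
    have h4 : Tendsto (fun x : ℝ => x ^ (γ - 2)) atTop (nhds 0) := by
      have := tendsto_rpow_neg_atTop (y := 2 - γ) (by linarith)
      simpa using this
    have h5 := (h4.comp tendsto_natCast_atTop_atTop).const_mul 2
    simpa using h5
  obtain ⟨n₀, hn₀⟩ := eventually_atTop.1 (h3.eventually_le_const hη)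
  refine ⟨max n₀ 1, le_max_right _ _, fun n hn => ?_⟩
  exact (pow_sec γ h1 h2 n ((le_max_right _ _).trans hn)).trans (hn₀ n ((le_max_left _ _).trans hn))

theorem adm_ex (p : ℕ) (hp : p.Prime) (hp2 : ¬ p ∣ 2) :
    ∃ r : ℤ, ∀ i : Fin 4, ¬ (p : ℤ) ∣ ((3 : ℕ) : ℤ) * ((i : ℕ) : ℤ) + r := by
  by_cases h3 : p = 3
  · subst h3
    refine ⟨1, fun i h => ?_⟩
    have h1 : ((3 : ℕ) : ℤ) ∣ ((3 : ℕ) : ℤ) * ((i : ℕ) : ℤ) := dvd_mul_right _ _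
    have h2 : ((3 : ℕ) : ℤ) ∣ 1 := by
      have h4 := dvd_sub h h1
      rwa [add_sub_cancel_left] at h4
    norm_num at h2
  · have hp5 : 5 ≤ p := by
      have h2 := hp.two_le
      rcases Nat.lt_or_ge p 5 with h | h
      · exfalso
        interval_cases p
        · exact hp2 dvd_rfl
        · exact h3 rfl
        · norm_num at hp
      · exact h
    by_contra hcon
    push Not at hcon
    have : Fact p.Prime := ⟨hp⟩
    have hsurj : ∀ v : ZMod p, ∃ i : Fin 4, -(((3 * (i : ℕ) : ℕ) : ZMod p)) = v := by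
      intro v
      obtain ⟨i, hi⟩ := hcon (v.val : ℤ)
      refine ⟨i, ?_⟩
      have h1 : (((((3 : ℕ) : ℤ) * (((i : ℕ) : ℕ) : ℤ) + (v.val : ℤ)) : ℤ) : ZMod p) = 0 :=
        (ZMod.intCast_zmod_eq_zero_iff_dvd _ _).2 hi
      push_cast at h1 ⊢
      rw [ZMod.natCast_zmod_val] at h1
      linear_combination -h1
    choose g hg using hsurj
    have hginj : Function.Injective g := by
      intro v w h
      rw [← hg v, ← hg w, h]
    have := Fintype.card_le_of_injective g hginj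
    rw [ZMod.card, Fintype.card_fin] at this
    omega

end Pool.Agent.K3h84.GP
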