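import Mathlib

/-! Auxiliary facts for the record scale (helper84). -/

set_option autoImplicit false

namespace Pool.Agent.K3h84.GP

open Finset

/-- the multiples of `T!` are admissible -/
theorem adm_fact (T p : ℕ) (hp : p.Prime) :
    ∃ r : ℤ, ∀ i : Fin T, ¬ (p : ℤ) ∣ ((1 : ℕ) : ℤ) * ((T.factorial * (i : ℕ) : ℕ) : ℤ) + r := by
  by_cases hpT : p ≤ T
  · refine ⟨1, fun i h => ?_⟩
    have h1 : (p : ℤ) ∣ ((T.factorial * (i : ℕ) : ℕ) : ℤ) :=
      Int.natCast_dvd_natCast.2 (((Nat.Prime.dvd_factorial hp).2 hpT).mul_right _)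
    have h2 : (p : ℤ) ∣ 1 := by
      have h3 := dvd_sub h (h1.mul_left ((1 : ℕ) : ℤ))
      rwa [add_sub_cancel_left] at h3
    have h3 : (p : ℤ) ∣ ((1 : ℕ) : ℤ) := by exact_mod_cast h2
    exact hp.one_lt.ne' (Nat.dvd_one.1 (Int.natCast_dvd_natCast.1 h3))
  · by_contra hcon
    push Not at hcon
    have hsurj : ∀ v : ZMod p, ∃ i : Fin T, -(((1 * (T.factorial * (i : ℕ)) : ℕ) : ZMod p)) = v := by
      intro v
      obtain ⟨i, hi⟩ := hcon (v.val : ℤ)
      refine ⟨i, ?_⟩
      have := Fact.mk hp
      have h1 : (((((1 : ℕ) : ℤ) * ((T.factorial * (i : ℕ) : ℕ) : ℤ) + (v.val : ℤ)) : ℤ) : ZMod p) = 0 :=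
        (ZMod.intCast_zmod_eq_zero_iff_dvd _ _).2 hi
      push_cast at h1 ⊢
      rw [ZMod.natCast_zmod_val] at h1
      linear_combination -h1
    choose g hg using hsurj
    have := Fact.mk hp
    have hginj : Function.Injective g := by
      intro v w h
      rw [← hg v, ← hg w, h]
    have := Fintype.card_le_of_injective g hginj
    rw [ZMod.card, Fintype.card_fin] at this
    exact hpT this

/-- a chain between different elements has a step between different elements -/
theorem step_of_chain {α : Type} {R : α → α → Prop} {i j : α} (h : Relation.ReflTransGen R i j) (hij : i ≠ j) :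
    ∃ x y, x ≠ y ∧ R x y := by
  by_contra hcon
  push Not at hcon
  have : ∀ z, Relation.ReflTransGen R i z → z = i := by
    intro z hz
    induction hz with
    | refl => rfl
    | tail _ h ih =>
      rw [ih] at h
      by_contra hne
      exact hcon _ _ (Ne.symm hne) h
  exact hij (this j h).symm

end Pool.Agent.K3h84.GP
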