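import Mathlib
import Pool.Agent.Y877.RecB
import Pool.Agent.K3h84.GP.Pick

/-! Differences of arbitrary sets up to the record scale (helper84). Adapted from `Pool.Agent.K3h91.MG.Rec`. -/

set_option autoImplicit false

namespace Pool.Agent.K3h84.GP

open Finset Filter Topology
open Pool.Agent.H256R2.SC (ff)
open Pool.Agent.H362R2.RQ (fib)
open Pool.Agent.Y877

open Classical in
theorem recCore : ∃ η : ℝ, 0 < η ∧ ∀ (T : ℕ) (hT : 1 ≤ T), ∃ K : ℕ, T ≤ K ∧ ∀ d : ℕ, Squarefree d →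
    ∃ c : ℝ, 0 < c ∧ ∀ᶠ X : ℝ in atTop, ∀ a b : ℕ, a.Coprime d → 1 ≤ b → d ∣ b →
    ∀ H : Fin T → Fin K → ℕ, Function.Injective (fun x : Fin T × Fin K => H x.1 x.2) →
    (∀ g i, ((b * H g i : ℕ) : ℝ) ≤ c * ff X) →
    (∀ p : ℕ, p.Prime → ∃ r : ℤ, ∀ i, ¬ (p : ℤ) ∣ r + ((b * H (clz T hT i) i : ℕ) : ℤ)) →
    ∃ S : Finset (Fin T), η * T ≤ S.card ∧
      Linked S (fun g g' => g ≠ g' ∧ ∃ i i', (H g i < H g' i' ∧ X ^ (6 / 7 : ℝ) ≤ gapCount X d a (b * (H g' i' - H g i))) ∨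
        (H g' i' < H g i ∧ X ^ (6 / 7 : ℝ) ≤ gapCount X d a (b * (H g i - H g' i')))) := by
  obtain ⟨η, hη, HM⟩ := Pool.Agent.TH101.RG.tuple_multiples
  refine ⟨η, hη, fun T hT => ?_⟩
  obtain ⟨K, hTK, HM⟩ := HM T hT
  refine ⟨K, hTK, fun d hd => ?_⟩
  obtain ⟨c, hc, HM⟩ := HM 1 1 1 d hd
  refine ⟨c, hc, ?_⟩
  have hpow : ∀ᶠ X : ℝ in atTop, (K : ℝ) ^ 2 * X ^ (6 / 7 : ℝ) ≤ X ^ (7 / 8 : ℝ) := by
    filter_upwards [(tendsto_rpow_atTop (by norm_num : (0 : ℝ) < 1 / 56)).eventually_ge_atTop ((K : ℝ) ^ 2),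
      eventually_gt_atTop (0 : ℝ)] with X h1 h2
    calc (K : ℝ) ^ 2 * X ^ (6 / 7 : ℝ) ≤ X ^ (1 / 56 : ℝ) * X ^ (6 / 7 : ℝ) :=
          mul_le_mul_of_nonneg_right h1 (Real.rpow_nonneg h2.le _)
      _ = X ^ (7 / 8 : ℝ) := by
          rw [← Real.rpow_add h2]
          norm_num
  filter_upwards [HM, Pool.Agent.H312R2.RG.ev_ff c hc, hpow, eventually_ge_atTop (1 : ℝ),
    Real.tendsto_log_atTop.eventually_ge_atTop (1 : ℝ)] with X hX hff hXp hX1 hXl a b ha hb hdb H hinj hHff hHadm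
  -- the tuple
  obtain ⟨t, ht⟩ : ∃ t : Fin K → ℕ, ∀ j, t j = b * H (clz T hT j) j := ⟨fun j => b * H (clz T hT j) j, fun _ => rfl⟩
  have htinj : Function.Injective t := by
    intro j j' h
    rw [ht, ht] at h
    exact clz_inj T hT H hinj (Nat.eq_of_mul_eq_mul_left (by omega : 0 < b) h)
  have htff : ∀ j, (t j : ℝ) ≤ c * ff X := by
    intro j
    rw [ht]
    exact hHff _ _
  have hadm : ∀ p : ℕ, p.Prime → ∃ v : ℕ, ∀ j, ¬ p ∣ v + t j := by
    intro p hp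
    obtain ⟨n, hn⟩ := hHadm p hp
    have hp0 : (p : ℤ) ≠ 0 := by exact_mod_cast hp.ne_zero
    refine ⟨(n % p).toNat, fun j h => hn j ?_⟩
    have h1 : ((n % p).toNat : ℤ) = n % p := Int.toNat_of_nonneg (Int.emod_nonneg _ hp0)
    have h2 : (p : ℤ) ∣ ((n % p).toNat : ℤ) + t j := by exact_mod_cast h
    rw [h1, ht] at h2
    have h3 : n + ((b * H (clz T hT j) j : ℕ) : ℤ) = (n % p + ((b * H (clz T hT j) j : ℕ) : ℤ)) + (n - n % p) := by ring
    rw [h3]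
    exact dvd_add h2 (Int.dvd_self_sub_emod)
  have htd : ∀ j, d ∣ t j := fun j => by
    rw [ht]
    exact hdb.mul_right _
  obtain ⟨bad, hbadc, hbad⟩ := bad_set X (by linarith) d a t
  obtain ⟨n, hXn, hn3, hnb, hnd, ⟨E, hE1, hE2⟩, hiso⟩ := hX 1 0 one_ne_zero (by
      rw [pow_one]
      simpa using hXl)
    (by simp) (by
      rw [pow_one]
      simp only [Int.cast_zero, abs_zero]
      linarith) t htinj (fun j => (htff j).trans hff.1) hadm a (fun j => by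
      obtain ⟨e, he⟩ := htd j
      rw [he]
      have h1 : Nat.Coprime (a + d * e) d := by
        rw [Nat.coprime_add_mul_left_left]
        exact ha
      exact h1)
    (clz T hT) (fun e => clz_card T K hT hTK e) bad (hbadc.trans hXp)
  have hiso' : ∀ q : ℕ, q.Prime → n ≤ q → (q : ℝ) ≤ n + c * ff X → ∃ l, q = n + t l := by
    intro q hq hnq hqn
    refine hiso 1 1 (by simp) (by simp) (by simp) (by simp) q hq ?_
    have h1 : ((1 * (q : ℤ) - 1 * (1 * (n : ℤ) + 0) : ℤ) : ℝ) = (q : ℝ) - n := by push_cast; ring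
    have h2 : (n : ℝ) ≤ q := by exact_mod_cast hnq
    rw [h1, abs_of_nonneg (by linarith)]
    linarith
  -- the hits
  obtain ⟨P, hP⟩ : ∃ P : Finset (Fin K), ∀ j, j ∈ P ↔ (n + t j).Prime :=
    ⟨univ.filter (fun j => (n + t j).Prime), fun j => by
      rw [mem_filter]; exact ⟨fun h => h.2, fun h => ⟨mem_univ _, h⟩⟩⟩
  have hcard : η * T ≤ ((P.image (clz T hT)).card : ℝ) := by
    refine hE1.trans ?_
    rw [Nat.cast_le]
    apply card_le_card
    intro e he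
    obtain ⟨j, hj1, hj2⟩ := hE2 e he
    exact mem_image.2 ⟨j, (hP j).2 hj2, hj1⟩
  refine ⟨P.image (clz T hT), hcard, ?_⟩
  refine linked_of_path t htinj P (clz T hT) _ (fun x y hxy => ?_) (fun w hw z hz hwz hcons hne => ?_)
  · -- symmetry
    obtain ⟨h1, i, i', h2⟩ := hxy
    exact ⟨h1.symm, i', i, h2.symm⟩
  · have hg : n + t w ∈ gset X d a (t z - t w) := by
      rw [mem_gset]
      have e1 : n + t w + (t z - t w) = n + t z := by omega
      have hw0 : (0 : ℝ) ≤ t w := Nat.cast_nonneg _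
      have h1 : (t w : ℝ) ≤ X := by
        have h2 := htff w
        have h3 := hff.2.2
        have h4 : 0 ≤ c * ff X := mul_nonneg hc.le hff.2.1
        linarith
      refine ⟨by push_cast; linarith, by push_cast; linarith, ?_, (hP w).1 hw, ?_, ?_⟩
      · have h5 : t w ≡ 0 [MOD d] := (Nat.modEq_zero_iff_dvd).2 (htd w)
        have h6 := hnd.add h5
        rw [add_zero] at h6
        exact h6
      · rw [e1]
        exact (hP z).1 hz
      · intro q hq1 hq2 hqp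
        rw [e1] at hq2
        obtain ⟨l, hl⟩ := hiso' q hqp (by omega) (by
          have h2 : (q : ℝ) ≤ ((n + t z : ℕ) : ℝ) := by exact_mod_cast hq2.le
          push_cast at h2
          have h3 := htff z
          linarith)
        rw [hl] at hq1 hq2 hqp
        have h2 := hcons l ((hP l).2 hqp) (by omega)
        omega
    have hgood := hbad n w z hnb hg
    have hlt' : H (clz T hT w) w < H (clz T hT z) z := by
      rw [ht, ht] at hwz
      exact Nat.lt_of_mul_lt_mul_left hwz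
    refine ⟨hne, w, z, Or.inl ⟨hlt', ?_⟩⟩
    have h1 : t z - t w = b * (H (clz T hT z) z - H (clz T hT w) w) := by
      rw [ht, ht, ← Nat.mul_sub]
    rw [← h1]
    exact hgood

/-- the classes are admissible -/
theorem adm_pickT (T K b : ℕ) (H : Fin T → Fin K → ℕ)
    (hmod : ∀ g i j, H g i ≡ H g j [MOD K.factorial]) (hTK : T ≤ K)
    (hT : ∀ p : ℕ, p.Prime → p ≤ T → ∃ r : ℤ, ∀ g i, ¬ (p : ℤ) ∣ r + ((b * H g i : ℕ) : ℤ))
    (col : Fin K → Fin T) :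
    ∀ p : ℕ, p.Prime → ∃ r : ℤ, ∀ i, ¬ (p : ℤ) ∣ r + ((b * H (col i) i : ℕ) : ℤ) := by
  intro p hp
  by_cases hpT : p ≤ T
  · obtain ⟨r, hr⟩ := hT p hp hpT
    exact ⟨r, fun i => hr _ _⟩
  haveI : Fact p.Prime := ⟨hp⟩
  obtain ⟨S, hS⟩ : ∃ S : Finset (ZMod p), S = univ.image (fun i : Fin K => -((b * H (col i) i : ℕ) : ZMod p)) :=
    ⟨_, rfl⟩
  have hSc : S.card < p := by
    by_cases hpK : p ≤ K
    · have hK : 0 < K := by have := hp.pos; omega
      have h4 : S ⊆ univ.image (fun g : Fin T => -((b * H g ⟨0, hK⟩ : ℕ) : ZMod p)) := by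
        intro x hx
        rw [hS, mem_image] at hx
        obtain ⟨i, -, rfl⟩ := hx
        rw [mem_image]
        refine ⟨col i, mem_univ _, ?_⟩
        have h5 : b * H (col i) ⟨0, hK⟩ ≡ b * H (col i) i [MOD p] :=
          ((hmod (col i) ⟨0, hK⟩ i).of_dvd (Nat.dvd_factorial hp.pos hpK)).mul_left b
        rw [(ZMod.natCast_eq_natCast_iff _ _ _).2 h5]
      have h5 := (card_le_card h4).trans card_image_le
      rw [card_univ, Fintype.card_fin] at h5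
      omega
    · have h4 : S.card ≤ K := by
        rw [hS]
        refine card_image_le.trans (le_of_eq ?_)
        rw [card_univ, Fintype.card_fin]
      omega
  obtain ⟨v, hv⟩ : ∃ v, v ∉ S := by
    by_contra hcon
    push Not at hcon
    have : S = univ := eq_univ_iff_forall.2 hcon
    rw [this, card_univ, ZMod.card] at hSc
    exact lt_irrefl _ hSc
  refine ⟨(v.val : ℤ), fun i hdvd => hv ?_⟩
  rw [hS, mem_image]
  refine ⟨i, mem_univ _, ?_⟩
  have h4 : (((v.val : ℤ) + ((b * H (col i) i : ℕ) : ℤ) : ℤ) : ZMod p) = 0 :=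
    (ZMod.intCast_zmod_eq_zero_iff_dvd _ _).2 hdvd
  rw [Int.cast_add, Int.cast_natCast, Int.cast_natCast, ZMod.natCast_zmod_val] at h4
  linear_combination -h4

open Classical in
/-- **`T` sets.** -/
theorem recSets : ∃ T K : ℕ, 2 ≤ T ∧ 1 ≤ K ∧ ∀ d : ℕ, Squarefree d → ∃ C : ℕ, ∀ᶠ X : ℝ in atTop, ∀ a b : ℕ,
    a.Coprime d → 1 ≤ b → d ∣ b → ∀ A : Fin T → Finset ℕ, (∀ g, K ≤ (A g).card) →
    (∀ g, ∀ x ∈ A g, ((C * (b * x) : ℕ) : ℝ) ≤ ff X) →
    (∀ p : ℕ, p.Prime → p ≤ T → ∃ r : ℤ, ∀ g, ∀ x ∈ A g, ¬ (p : ℤ) ∣ r + ((b * x : ℕ) : ℤ)) →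
    ∃ g g', g ≠ g' ∧ ∃ x ∈ A g, ∃ y ∈ A g', x < y ∧ X ^ (6 / 7 : ℝ) ≤ gapCount X d a (b * (y - x)) := by
  obtain ⟨η, hη, hcore⟩ := recCore
  obtain ⟨T, hT⟩ : ∃ T : ℕ, T = ⌈2 / η⌉₊ + 2 := ⟨_, rfl⟩
  have hT2 : 2 ≤ T := by omega
  have hηT : 1 < η * T := by
    have h1 := Nat.le_ceil (2 / η)
    have h2 : (T : ℝ) = (⌈2 / η⌉₊ : ℝ) + 2 := by rw [hT]; push_cast; ring
    have h3 : 2 / η ≤ T := by rw [h2]; linarith
    rw [div_le_iff₀ hη] at h3
    linarith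
  obtain ⟨K, hTK, hK⟩ := hcore T (by omega)
  refine ⟨T, T * (K * K.factorial), hT2, ?_, fun d hd => ?_⟩
  · have h1 := Nat.factorial_pos K
    exact Nat.mul_pos (by omega) (Nat.mul_pos (by omega) h1)
  obtain ⟨c, hc, hX⟩ := hK d hd
  obtain ⟨C, hC⟩ := exists_nat_ge (1 / c)
  refine ⟨C, ?_⟩
  filter_upwards [hX] with X hX a b ha hb hdb A hA hAf hadm
  obtain ⟨H, h5, -, h6, h7⟩ := pick K K.factorial (Nat.factorial_pos _) T ∅ A
    (fun g => by rw [card_empty, zero_add]; exact hA g)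
  obtain ⟨S, hS, hlink⟩ := hX a b ha hb hdb H h6 (fun g i => by
    have h8 := hAf g _ (h5 g i)
    have h9 : 1 ≤ c * C := by
      rw [div_le_iff₀ hc] at hC
      linarith
    have h10 : (0 : ℝ) ≤ ((b * H g i : ℕ) : ℝ) := Nat.cast_nonneg _
    calc ((b * H g i : ℕ) : ℝ) ≤ (c * C) * ((b * H g i : ℕ) : ℝ) := by nlinarith
      _ = c * ((C * (b * H g i) : ℕ) : ℝ) := by push_cast; ring
      _ ≤ c * ff X := mul_le_mul_of_nonneg_left h8 hc.le)
    (adm_pickT T K b H h7 hTK (fun p hp hpT => by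
      obtain ⟨r, hr⟩ := hadm p hp hpT
      exact ⟨r, fun g i => hr g _ (h5 g i)⟩) (clz T (by omega)))
  have hS1 : 1 < S.card := by
    have : (1 : ℝ) < S.card := hηT.trans_le hS
    exact_mod_cast this
  obtain ⟨g₁, hg₁, g₂, hg₂, hne⟩ := one_lt_card.1 hS1
  rcases Relation.ReflTransGen.cases_head (hlink g₁ hg₁ g₂ hg₂) with h | ⟨g₃, ⟨-, -, hne3, i, i', h⟩, -⟩
  · exact absurd h hne
  · rcases h with h | h
    · exact ⟨g₁, g₃, hne3, _, h5 g₁ i, _, h5 g₃ i', h.1, h.2⟩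
    · exact ⟨g₃, g₁, hne3.symm, _, h5 g₃ i', _, h5 g₁ i, h.1, h.2⟩

end Pool.Agent.K3h84.GP
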