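import Mathlib
import Pool.Agent.K3h84.GP.RecSets
import Pool.Agent.K3h84.GP.Gen
import Pool.Agent.H312R2.PG.Comb

/-! Differences of arbitrary sets up to the record scale: consequences (helper84). -/

set_option autoImplicit false

namespace Pool.Agent.K3h84.GP

open Finset Filter Topology
open Pool.Agent.H256R2.SC (ff)
open Pool.Agent.Y877

/-- `b d` is often a gap -/
def Gd (X : ℝ) (a d b : ℕ) : Set ℕ := {h | X ^ (6 / 7 : ℝ) ≤ gapCount X d a (b * h)}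

open Classical in
/-- `T` sets in a short interval -/
theorem recSetsM : ∃ T K : ℕ, 2 ≤ T ∧ 1 ≤ K ∧ ∀ d : ℕ, Squarefree d → ∃ C : ℕ, ∀ᶠ X : ℝ in atTop, ∀ a b : ℕ,
    a.Coprime d → 1 ≤ b → d ∣ b → ∀ (M : ℕ) (A : Fin T → Finset ℕ), (∀ g, K ≤ (A g).card) →
    (∀ g, ∀ x ∈ A g, M ≤ x ∧ ((C * (b * (x - M)) : ℕ) : ℝ) ≤ ff X) →
    (∀ p : ℕ, p.Prime → p ≤ T → ∃ r : ℤ, ∀ g, ∀ x ∈ A g, ¬ (p : ℤ) ∣ r + ((b * x : ℕ) : ℤ)) →
    ∃ g g', g ≠ g' ∧ ∃ x ∈ A g, ∃ y ∈ A g', x < y ∧ y - x ∈ Gd X a d b := by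
  obtain ⟨T, K, hT, hK, h⟩ := recSets
  refine ⟨T, K, hT, hK, fun d hd => ?_⟩
  obtain ⟨C, hC⟩ := h d hd
  refine ⟨C, ?_⟩
  filter_upwards [hC] with X hX a b ha hb hdb M A hA hAf hadm
  have hinj : ∀ g, Set.InjOn (fun x => x - M) (A g : Set ℕ) := by
    intro g x hx y hy hxy
    have h1 := (hAf g x (mem_coe.1 hx)).1
    have h2 := (hAf g y (mem_coe.1 hy)).1
    simp only at hxy
    omega
  obtain ⟨g, g', hg, x, hx, y, hy, hxy, hG⟩ := hX a b ha hb hdb (fun g => (A g).image (fun x => x - M))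
    (fun g => by rw [card_image_of_injOn (hinj g)]; exact hA g) (fun g x hx => by
      obtain ⟨z, hz, rfl⟩ := mem_image.1 hx
      exact (hAf g z hz).2) (fun p hp hpT => by
      obtain ⟨r, hr⟩ := hadm p hp hpT
      refine ⟨r + ((b * M : ℕ) : ℤ), fun g x hx hd => ?_⟩
      obtain ⟨z, hz, rfl⟩ := mem_image.1 hx
      have h1 := (hAf g z hz).1
      apply hr g z hz
      have e1 : r + ((b * z : ℕ) : ℤ) = r + ((b * M : ℕ) : ℤ) + ((b * (z - M) : ℕ) : ℤ) := by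
        push_cast [Nat.cast_sub h1]
        ring
      rw [e1]
      exact hd)
  obtain ⟨z, hz, rfl⟩ := mem_image.1 hx
  obtain ⟨w, hw, rfl⟩ := mem_image.1 hy
  have h1 := (hAf g z hz).1
  have h2 := (hAf g' w hw).1
  refine ⟨g, g', hg, z, hz, w, hw, by omega, ?_⟩
  have e1 : w - M - (z - M) = w - z := by omega
  rw [e1] at hG
  exact hG

open Classical in
/-- power saving for `T` sets -/
theorem savingT {D : Set ℕ} {T K : ℕ} (hT : 1 ≤ T) (hK : 1 ≤ K) (n : ℕ) (hn : 1 ≤ n) (A : Fin T → Finset ℕ)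
    (hA : ∀ g, n ≤ (A g).card)
    (h : ∀ B : Fin T → Finset ℕ, (∀ g, B g ⊆ A g) → (∀ g, K ≤ (B g).card) →
      ∃ g g', g ≠ g' ∧ ∃ x ∈ B g, ∃ y ∈ B g', x < y ∧ y - x ∈ D) :
    (((Fintype.piFinset A).filter (fun x => ¬ ∃ i j, x i < x j ∧ x j - x i ∈ D)).card : ℝ) ≤
      ((T * K ^ 2 : ℕ) : ℝ) * (∏ g, ((A g).card : ℝ)) / (n : ℝ) ^ (1 / ((K ^ T : ℕ) : ℝ)) := by
  refine boxes_card T K hK hT n hn A hA _ (filter_subset _ _) (fun v hv hvA => ?_)
  obtain ⟨g, g', hgg, x, hx, y, hy, hxy, hD⟩ := h (fun g => univ.image (v g)) (fun g x hx => by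
    obtain ⟨s, -, rfl⟩ := mem_image.1 hx
    exact hvA g s) (fun g => by
      rw [card_image_of_injective _ (hv g), card_univ, Fintype.card_fin])
  rw [mem_image] at hx hy
  obtain ⟨s, -, rfl⟩ := hx
  obtain ⟨u, -, rfl⟩ := hy
  refine ⟨fun i => if i = g then s else u, fun hmem => (mem_filter.1 hmem).2 ⟨g, g', ?_⟩⟩
  simp only [if_true, if_neg hgg.symm]
  exact ⟨hxy, hD⟩

open Classical in
/-- the number of the good pairs -/
theorem pairs {D : Set ℕ} {K : ℕ} (hK : 2 ≤ K) (A : Finset ℕ) (hA : K ≤ A.card)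
    (h : ∀ B ⊆ A, K ≤ B.card → ∃ x ∈ B, ∃ y ∈ B, x < y ∧ y - x ∈ D) :
    A.card.choose 2 ≤ ((A ×ˢ A).filter (fun p => p.1 < p.2 ∧ p.2 - p.1 ∈ D)).card * K.choose 2 := by
  obtain ⟨R, hR⟩ : ∃ R : Finset (Finset ℕ), R = ((A ×ˢ A).filter (fun p => p.1 < p.2 ∧ p.2 - p.1 ∈ D)).image
      (fun p => {p.1, p.2}) := ⟨_, rfl⟩
  have h1 := Pool.Agent.H312R2.PG.turan_avg A K 2 hK hA R (by
    intro B hB
    rw [hR, mem_image] at hB
    obtain ⟨p, hp, rfl⟩ := hB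
    rw [mem_filter, mem_product] at hp
    rw [mem_powersetCard]
    refine ⟨?_, card_pair hp.2.1.ne⟩
    intro z hz
    rw [mem_insert, mem_singleton] at hz
    rcases hz with rfl | rfl
    · exact hp.1.1
    · exact hp.1.2) (by
    intro B hB
    rw [mem_powersetCard] at hB
    obtain ⟨x, hx, y, hy, hxy, hD⟩ := h B hB.1 hB.2.ge
    refine ⟨{x, y}, ?_, ?_⟩
    · rw [hR, mem_image]
      exact ⟨(x, y), mem_filter.2 ⟨mem_product.2 ⟨hB.1 hx, hB.1 hy⟩, hxy, hD⟩, rfl⟩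
    · intro z hz
      rw [mem_insert, mem_singleton] at hz
      rcases hz with rfl | rfl
      · exact hx
      · exact hy)
  refine h1.trans (Nat.mul_le_mul_right _ ?_)
  rw [hR]
  exact card_image_le

open Classical in
/-- a large class modulo `q` -/
theorem big_class (q : ℕ) (hq : 1 ≤ q) (A : Finset ℕ) :
    ∃ c < q, A.card ≤ q * (A.filter (fun x => x % q = c)).card := by
  by_contra hcon
  push Not at hcon
  have h1 : A.card = ∑ c ∈ range q, (A.filter (fun x => x % q = c)).card :=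
    card_eq_sum_card_fiberwise (fun x _ => mem_coe.2 (mem_range.2 (Nat.mod_lt x hq)))
  have h2 : q * A.card = ∑ c ∈ range q, q * (A.filter (fun x => x % q = c)).card := by
    rw [← mul_sum, ← h1]
  have h3 : ∑ c ∈ range q, q * (A.filter (fun x => x % q = c)).card < ∑ _c ∈ range q, A.card :=
    sum_lt_sum_of_nonempty ⟨0, mem_range.2 hq⟩ (fun c hc => hcon c (mem_range.1 hc))
  rw [sum_const, card_range, smul_eq_mul] at h3
  omega

open Classical in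
/-- one set -/
theorem one_of_T {D : Set ℕ} {T K b : ℕ} (A : Finset ℕ)
    (h : ∀ B : Fin T → Finset ℕ, (∀ g, B g ⊆ A) → (∀ g, K ≤ (B g).card) →
      (∀ p : ℕ, p.Prime → p ≤ T → ∃ r : ℤ, ∀ g, ∀ x ∈ B g, ¬ (p : ℤ) ∣ r + ((b * x : ℕ) : ℤ)) →
      ∃ g g', g ≠ g' ∧ ∃ x ∈ B g, ∃ y ∈ B g', x < y ∧ y - x ∈ D) :
    ∀ B ⊆ A, T.factorial * K ≤ B.card → ∃ x ∈ B, ∃ y ∈ B, x < y ∧ y - x ∈ D := by
  intro B hBA hB
  obtain ⟨c, -, hc⟩ := big_class T.factorial T.factorial_pos B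
  obtain ⟨g, g', -, x, hx, y, hy, hxy, hD⟩ := h (fun _ => B.filter (fun x => x % T.factorial = c))
    (fun _ => (filter_subset _ _).trans hBA) (fun _ => by
      have h1 := hB.trans hc
      exact Nat.le_of_mul_le_mul_left h1 T.factorial_pos) (fun p hp hpT => by
      refine ⟨1 - ((b * c : ℕ) : ℤ), fun _ x hx hd => ?_⟩
      rw [mem_filter] at hx
      have h1 : (p : ℤ) ∣ ((x : ℕ) : ℤ) - (c : ℤ) := by
        have h2 : c ≡ x [MOD T.factorial] := by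
          rw [← hx.2]
          exact Nat.mod_modEq _ _
        have h3 := (h2.of_dvd (Nat.dvd_factorial hp.pos hpT))
        exact (Nat.modEq_iff_dvd.1 h3)
      have h2 : (p : ℤ) ∣ 1 := by
        have h3 := dvd_sub hd (h1.mul_left (b : ℤ))
        have e1 : 1 - ((b * c : ℕ) : ℤ) + ((b * x : ℕ) : ℤ) - (b : ℤ) * (((x : ℕ) : ℤ) - (c : ℤ)) = 1 := by
          push_cast
          ring
        rwa [e1] at h3
      have h3 : (p : ℤ) ∣ ((1 : ℕ) : ℤ) := by exact_mod_cast h2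
      exact hp.one_lt.ne' (Nat.dvd_one.1 (Int.natCast_dvd_natCast.1 h3)))
  exact ⟨x, (mem_filter.1 hx).1, y, (mem_filter.1 hy).1, hxy, hD⟩

end Pool.Agent.K3h84.GP
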