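import Mathlib
import Pool.Agent.K3h46.RB.Szem

/-! Sets meeting all progressions, along slowly curved sequences (helper84). -/

set_option autoImplicit false

namespace Pool.Agent.K3h84.GP

open Finset

/-- `H` meets every progression of `J` terms with first term and difference at most `Y` in total -/
def SynB (J Y : ℕ) (H : ℕ → Prop) : Prop := ∀ x d : ℕ, 1 ≤ x → 1 ≤ d → x + d ≤ Y → ∃ l < J, H (x + l * d)

open Classical in
/-- density in progressions, from Szemerédi's theorem -/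
theorem apDens (J : ℕ) (ε : ℝ) (hε : 0 < ε) : ∃ M : ℕ, 1 ≤ M ∧ ∀ (Y : ℕ) (H : ℕ → Prop), SynB J Y H →
    ∀ x d : ℕ, 1 ≤ x → 1 ≤ d → (2 * M + 1) * (x + d) ≤ Y →
    (((range M).filter (fun i => ¬ H (x + i * d))).card : ℝ) ≤ ε * M := by
  obtain ⟨D, hD, hsz⟩ := Pool.Agent.K3h46.RB.szem J ε hε
  refine ⟨D, hD, fun Y H hH x d hx hd hY => ?_⟩
  by_contra hcon
  push Not at hcon
  obtain ⟨a, e, he, hae⟩ := hsz D le_rfl _ (filter_subset _ _) hcon.le
  have h0 := hae 0 (Nat.zero_le _)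
  rw [zero_mul, add_zero, mem_filter, mem_range] at h0
  have hxd : x + d ≤ Y := by
    have h1 : 1 * (x + d) ≤ (2 * D + 1) * (x + d) := Nat.mul_le_mul_right _ (by omega)
    omega
  have hJ : 1 ≤ J := by
    obtain ⟨l, hl, -⟩ := hH x d hx hd hxd
    omega
  have h1 := hae 1 hJ
  rw [one_mul, mem_filter, mem_range] at h1
  obtain ⟨l, hl, hHl⟩ := hH (x + a * d) (e * d) (by omega) (Nat.mul_pos he hd) (by
    have h2 : (a + e) * d ≤ D * d := Nat.mul_le_mul_right _ (by omega)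
    have h3 : (2 * D + 1) * (x + d) = x + D * d + (2 * (D * x) + D * d + d) := by ring
    have h4 : (a + e) * d = a * d + e * d := by ring
    omega)
  have h2 := (mem_filter.1 (hae l hl.le)).2
  apply h2
  have e1 : x + (a + l * e) * d = x + a * d + l * (e * d) := by ring
  rw [e1]
  exact hHl

open Classical in
/-- covering a window by blocks -/
theorem cover (P : ℕ → Prop) (ε : ℝ) (hε : 0 ≤ ε) (W : ℕ) : ∀ T u : ℕ,
    (∀ n0, u ≤ n0 → n0 + W ≤ u + T → ∃ l, 1 ≤ l ∧ l ≤ W ∧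
      (((Ico n0 (n0 + l)).filter P).card : ℝ) ≤ ε * l) →
    (((Ico u (u + T)).filter P).card : ℝ) ≤ ε * T + W := by
  intro T
  induction T using Nat.strong_induction_on with
  | _ T ih =>
    intro u h
    rcases Nat.lt_or_ge T W with hTW | hTW
    · have h1 : ((Ico u (u + T)).filter P).card ≤ W := by
        refine (card_filter_le _ _).trans ?_
        rw [Nat.card_Ico]
        omega
      have h2 : (((Ico u (u + T)).filter P).card : ℝ) ≤ W := by exact_mod_cast h1
      have h3 : 0 ≤ ε * (T : ℝ) := by positivity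
      linarith
    · obtain ⟨l, hl1, hlW, hl⟩ := h u le_rfl (by omega)
      have h1 := ih (T - l) (by omega) (u + l) (fun n0 hn0 hn1 => h n0 (by omega) (by omega))
      have e1 : Ico u (u + T) = Ico u (u + l) ∪ Ico (u + l) (u + l + (T - l)) := by
        rw [Ico_union_Ico_eq_Ico (by omega) (by omega)]
        congr 1
        omega
      rw [e1, filter_union]
      have h2 : (((filter P (Ico u (u + l)) ∪ filter P (Ico (u + l) (u + l + (T - l)))).card : ℕ) : ℝ) ≤
          ((filter P (Ico u (u + l))).card : ℝ) + ((filter P (Ico (u + l) (u + l + (T - l)))).card : ℝ) := by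
        exact_mod_cast card_union_le _ _
      have h3 : (((T - l : ℕ) : ℝ)) = (T : ℝ) - l := by
        rw [Nat.cast_sub (by omega)]
      rw [h3] at h1
      nlinarith

/-- small second differences: almost linear -/
theorem near_linear (f : ℕ → ℝ) (η : ℝ) (hη : 0 ≤ η) (n0 L : ℕ)
    (h : ∀ n, n0 ≤ n → n + 2 ≤ n0 + L → |f (n + 2) - 2 * f (n + 1) + f n| ≤ η) :
    ∀ k ≤ L, |f (n0 + k) - f n0 - k * (f (n0 + 1) - f n0)| ≤ η * k ^ 2 := by
  have h1 : ∀ k, k + 1 ≤ L → |(f (n0 + k + 1) - f (n0 + k)) - (f (n0 + 1) - f n0)| ≤ η * k := by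
    intro k
    induction k with
    | zero => intro _; simp
    | succ k ih =>
      intro hk
      have h2 := ih (by omega)
      have h3 := h (n0 + k) (by omega) (by omega)
      have e1 : (f (n0 + (k + 1) + 1) - f (n0 + (k + 1))) - (f (n0 + 1) - f n0) =
          (f (n0 + k + 2) - 2 * f (n0 + k + 1) + f (n0 + k)) +
          ((f (n0 + k + 1) - f (n0 + k)) - (f (n0 + 1) - f n0)) := by
        have e2 : n0 + (k + 1) + 1 = n0 + k + 2 := by ring
        have e3 : n0 + (k + 1) = n0 + k + 1 := by ring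
        rw [e2, e3]
        ring
      rw [e1]
      refine (abs_add_le _ _).trans ?_
      push_cast
      linarith
  intro k
  induction k with
  | zero => intro _; simp
  | succ k ih =>
    intro hk
    have h2 := ih (by omega)
    have h3 := h1 k hk
    have e1 : f (n0 + (k + 1)) - f n0 - ((k + 1 : ℕ) : ℝ) * (f (n0 + 1) - f n0) =
        (f (n0 + k) - f n0 - k * (f (n0 + 1) - f n0)) +
        ((f (n0 + k + 1) - f (n0 + k)) - (f (n0 + 1) - f n0)) := by
      have e2 : n0 + (k + 1) = n0 + k + 1 := by ring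
      rw [e2]
      push_cast
      ring
    rw [e1]
    refine (abs_add_le _ _).trans ?_
    push_cast
    have hk0 : (0 : ℝ) ≤ k := Nat.cast_nonneg k
    nlinarith [mul_nonneg hη hk0]

open Classical in
/-- one class of a block -/
theorem one_class (C M : ℕ) (ε' : ℝ) (Y : ℕ) (H : ℕ → Prop)
    (hM : ∀ x d : ℕ, 1 ≤ x → 1 ≤ d → (2 * M + 1) * (x + d) ≤ Y →
      (((range M).filter (fun i => ¬ H (x + i * d))).card : ℝ) ≤ ε' * M)
    (g : ℕ → ℝ) (F : ℝ) (hF : C + 4 ≤ F) (r : ℕ) (hr : 1 ≤ r)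
    (hg : ∀ i < M, |g i - (F + i * r)| ≤ 1)
    (hY : ((2 * M + 1 : ℕ) : ℝ) * (F + C + 2 + r) ≤ Y) :
    (((range M).filter (fun i => ∃ k : ℕ, |(k : ℝ) - g i| ≤ C ∧ ¬ H k)).card : ℝ) ≤
      (2 * C + 4) * (ε' * M) := by
  obtain ⟨x, hx⟩ : ∃ x : ℕ → ℕ, ∀ c, x c = (⌊F⌋ + c - (C + 1)).toNat := ⟨_, fun _ => rfl⟩
  have hFl : ((C : ℤ) + 4) ≤ ⌊F⌋ := by
    rw [Int.le_floor]
    push_cast
    exact hF
  have hxz : ∀ c, ((x c : ℕ) : ℤ) = ⌊F⌋ + c - (C + 1) := fun c => by
    rw [hx, Int.toNat_of_nonneg (by omega)]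
  have hsub : (range M).filter (fun i => ∃ k : ℕ, |(k : ℝ) - g i| ≤ C ∧ ¬ H k) ⊆
      (range (2 * C + 4)).biUnion (fun c => (range M).filter (fun i => ¬ H (x c + i * r))) := by
    intro i hi
    rw [mem_filter, mem_range] at hi
    obtain ⟨hiM, k, hk, hHk⟩ := hi
    have h1 := hg i hiM
    have h2 : |(k : ℝ) - (F + i * r)| ≤ C + 1 := by
      have e1 : (k : ℝ) - (F + i * r) = ((k : ℝ) - g i) + (g i - (F + i * r)) := by ring
      rw [e1]
      exact (abs_add_le _ _).trans (add_le_add hk h1)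
    rw [abs_le] at h2
    have h3 := Int.floor_le F
    have h4 := Int.lt_floor_add_one F
    have h5 : (-(C + 1) : ℤ) ≤ (k : ℤ) - ⌊F⌋ - i * r := by
      have : (-(C + 1) : ℝ) ≤ (k : ℝ) - (⌊F⌋ : ℝ) - i * r := by linarith [h2.1]
      exact_mod_cast this
    have h6 : (k : ℤ) - ⌊F⌋ - i * r < C + 2 := by
      have : (k : ℝ) - (⌊F⌋ : ℝ) - i * r < C + 2 := by linarith [h2.2]
      exact_mod_cast this
    rw [mem_biUnion]
    refine ⟨((k : ℤ) - ⌊F⌋ - i * r + (C + 1)).toNat, ?_, ?_⟩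
    · rw [mem_range]
      omega
    · rw [mem_filter, mem_range]
      refine ⟨hiM, ?_⟩
      have e1 : x ((k : ℤ) - ⌊F⌋ - i * r + (C + 1)).toNat + i * r = k := by
        have h7 := hxz ((k : ℤ) - ⌊F⌋ - i * r + (C + 1)).toNat
        have h8 : ((((k : ℤ) - ⌊F⌋ - i * r + (C + 1)).toNat : ℕ) : ℤ) = (k : ℤ) - ⌊F⌋ - i * r + (C + 1) :=
          Int.toNat_of_nonneg (by omega)
        rw [h8] at h7
        have h9 : ((x ((k : ℤ) - ⌊F⌋ - i * r + (C + 1)).toNat + i * r : ℕ) : ℤ) = (k : ℤ) := by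
          push_cast
          rw [h7]
          ring
        exact_mod_cast h9
      rw [e1]
      exact hHk
  have h1 : (((range M).filter (fun i => ∃ k : ℕ, |(k : ℝ) - g i| ≤ C ∧ ¬ H k)).card : ℝ) ≤
      ∑ c ∈ range (2 * C + 4), (((range M).filter (fun i => ¬ H (x c + i * r))).card : ℝ) := by
    exact_mod_cast (card_le_card hsub).trans card_biUnion_le
  refine h1.trans ?_
  have h2 : ∀ c ∈ range (2 * C + 4), (((range M).filter (fun i => ¬ H (x c + i * r))).card : ℝ) ≤ ε' * M := by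
    intro c hc
    rw [mem_range] at hc
    have h3 := hxz c
    refine hM (x c) r (by omega) hr ?_
    have h4 : ((x c : ℕ) : ℝ) ≤ F + C + 2 := by
      have h5 : ((x c : ℕ) : ℝ) = (⌊F⌋ : ℝ) + c - (C + 1) := by exact_mod_cast h3
      have h6 := Int.floor_le F
      have h7 : (c : ℝ) ≤ 2 * C + 3 := by exact_mod_cast (by omega : c ≤ 2 * C + 3)
      rw [h5]
      linarith
    have h5 : (((2 * M + 1) * (x c + r) : ℕ) : ℝ) ≤ (Y : ℝ) := by
      push_cast
      push_cast at hY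
      have h6 : (0 : ℝ) ≤ 2 * (M : ℝ) + 1 := by positivity
      calc (2 * (M : ℝ) + 1) * ((x c : ℝ) + r) ≤ (2 * (M : ℝ) + 1) * (F + C + 2 + r) :=
            mul_le_mul_of_nonneg_left (by linarith) h6
        _ ≤ Y := hY
    exact_mod_cast h5
  refine (sum_le_sum h2).trans (le_of_eq ?_)
  rw [sum_const, card_range, nsmul_eq_mul]
  push_cast
  ring

open Classical in
/-- **Windows of slowly curved sequences.** -/
theorem slow (J C : ℕ) (ε c₀ : ℝ) (hε : 0 < ε) (hc₀ : 0 < c₀) : ∃ (η : ℝ) (W : ℕ), 0 < η ∧ 1 ≤ W ∧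
    ∀ (Y : ℕ) (H : ℕ → Prop), SynB J Y H → ∀ (f : ℕ → ℝ) (u T : ℕ),
    (∀ n, u ≤ n → n ≤ u + T → C + 4 ≤ f n) →
    (∀ n, u ≤ n → n + 1 ≤ u + T → c₀ ≤ f (n + 1) - f n) →
    (∀ n, u ≤ n → n + 2 ≤ u + T → |f (n + 2) - 2 * f (n + 1) + f n| ≤ η) →
    (W : ℝ) * f (u + T) ≤ Y →
    (((Ico u (u + T)).filter (fun n => ∃ k : ℕ, |(k : ℝ) - f n| ≤ C ∧ ¬ H k)).card : ℝ) ≤ ε * T + W := by
  obtain ⟨ε', hε'⟩ : ∃ ε' : ℝ, ε' = ε / (2 * C + 4) := ⟨_, rfl⟩
  have hε'0 : 0 < ε' := by rw [hε']; positivity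
  obtain ⟨M, hM1, hM⟩ := apDens J ε' hε'0
  obtain ⟨t, ht⟩ : ∃ t : ℕ, t = ⌈1 / c₀⌉₊ := ⟨_, rfl⟩
  have ht1 : 1 ≤ t := by
    rw [ht]
    exact Nat.ceil_pos.2 (by positivity)
  have htc : 1 ≤ t * c₀ := by
    have h1 := Nat.le_ceil (1 / c₀)
    rw [← ht, div_le_iff₀ hc₀] at h1
    exact h1
  obtain ⟨L, hL⟩ : ∃ L : ℕ, L = t * (2 * M) * M := ⟨_, rfl⟩
  have hL1 : 1 ≤ L := by
    rw [hL]
    exact Nat.mul_pos (Nat.mul_pos ht1 (by omega)) hM1
  have hLr : (1 : ℝ) ≤ L := by exact_mod_cast hL1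
  refine ⟨1 / (2 * (L : ℝ) ^ 2), L + 4 * (2 * M + 1), by positivity, by omega,
    fun Y H hH f u T hf hinc hsec hYf => ?_⟩
  have hmono : ∀ k n, u ≤ n → n + k ≤ u + T → f n ≤ f (n + k) := by
    intro k
    induction k with
    | zero => intro n _ _; simp
    | succ k ih =>
      intro n hn hk
      have h1 := ih n hn (by omega)
      have h2 := hinc (n + k) (by omega) (by omega)
      have e1 : n + (k + 1) = n + k + 1 := by ring
      rw [e1]
      linarith
  have hcov := cover (fun n => ∃ k : ℕ, |(k : ℝ) - f n| ≤ C ∧ ¬ H k) ε hε.le L T u (by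
    intro n0 hn0 hn1
    obtain ⟨α, hα⟩ : ∃ α : ℝ, α = f (n0 + 1) - f n0 := ⟨_, rfl⟩
    have hαc : c₀ ≤ α := by rw [hα]; exact hinc n0 hn0 (by omega)
    obtain ⟨k, hk0, hkQ, hkr⟩ := Real.exists_nat_abs_mul_sub_round_le ((t : ℝ) * α) (n := 2 * M) (by omega)
    obtain ⟨q, hq⟩ : ∃ q : ℕ, q = k * t := ⟨_, rfl⟩
    have hq1 : 1 ≤ q := by rw [hq]; exact Nat.mul_pos hk0 ht1
    have hqL : q * M ≤ L := by
      rw [hq, hL, mul_comm k t]
      exact Nat.mul_le_mul_right _ (Nat.mul_le_mul_left _ hkQ)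
    have hqα : 1 ≤ (q : ℝ) * α := by
      have h1 : (1 : ℝ) ≤ k := by exact_mod_cast hk0
      have h2 : 1 ≤ (t : ℝ) * α := htc.trans (mul_le_mul_of_nonneg_left hαc (Nat.cast_nonneg _))
      rw [hq]
      push_cast
      nlinarith
    obtain ⟨rz, hrz⟩ : ∃ rz : ℤ, rz = round ((k : ℝ) * ((t : ℝ) * α)) := ⟨_, rfl⟩
    have hkr' : |(q : ℝ) * α - rz| ≤ 1 / (2 * (M : ℝ) + 1) := by
      rw [hrz, hq]
      push_cast at hkr ⊢
      rw [mul_assoc]
      exact hkr
    have hMr : (1 : ℝ) ≤ M := by exact_mod_cast hM1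
    have h3M : 1 / (2 * (M : ℝ) + 1) ≤ 1 / 3 := div_le_div_of_nonneg_left (by norm_num) (by norm_num) (by linarith)
    have hrz1 : 1 ≤ rz := by
      have h1 := (abs_le.1 (hkr'.trans h3M)).2
      have h2 : (0 : ℝ) < rz := by linarith
      exact_mod_cast (by exact_mod_cast h2 : (0 : ℤ) < rz)
    obtain ⟨r, hr⟩ : ∃ r : ℕ, (r : ℤ) = rz := ⟨rz.toNat, Int.toNat_of_nonneg (by omega)⟩
    have hr1 : 1 ≤ r := by omega
    have hrr : ((r : ℕ) : ℝ) = (rz : ℝ) := by exact_mod_cast hr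
    refine ⟨q * M, Nat.mul_pos hq1 hM1, hqL, ?_⟩
    have hlin := near_linear f (1 / (2 * (L : ℝ) ^ 2)) (by positivity) n0 L
      (fun n hn hn2 => hsec n (by omega) (by omega))
    rw [← hα] at hlin
    have hlin' : ∀ k ≤ L, |f (n0 + k) - f n0 - k * α| ≤ 1 / 2 := by
      intro k hk
      refine (hlin k hk).trans ?_
      have h1 : (k : ℝ) ^ 2 ≤ (L : ℝ) ^ 2 := pow_le_pow_left₀ (Nat.cast_nonneg _) (by exact_mod_cast hk) 2
      calc 1 / (2 * (L : ℝ) ^ 2) * (k : ℝ) ^ 2 ≤ 1 / (2 * (L : ℝ) ^ 2) * (L : ℝ) ^ 2 :=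
            mul_le_mul_of_nonneg_left h1 (by positivity)
        _ = 1 / 2 := by field_simp
    -- the classes
    have hsub : (Ico n0 (n0 + q * M)).filter (fun n => ∃ k : ℕ, |(k : ℝ) - f n| ≤ C ∧ ¬ H k) ⊆
        (range q).biUnion (fun h1 => ((range M).filter
          (fun i => ∃ k : ℕ, |(k : ℝ) - f (n0 + (h1 + q * i))| ≤ C ∧ ¬ H k)).image
            (fun i => n0 + (h1 + q * i))) := by
      intro n hn
      rw [mem_filter, mem_Ico] at hn
      obtain ⟨⟨hn2, hn3⟩, hn4⟩ := hn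
      rw [mem_biUnion]
      have e1 : n = n0 + ((n - n0) % q + q * ((n - n0) / q)) := by
        rw [Nat.mod_add_div]
        omega
      refine ⟨(n - n0) % q, mem_range.2 (Nat.mod_lt _ hq1), ?_⟩
      rw [mem_image]
      refine ⟨(n - n0) / q, ?_, e1.symm⟩
      rw [mem_filter, mem_range, ← e1]
      refine ⟨?_, hn4⟩
      rw [Nat.div_lt_iff_lt_mul hq1, mul_comm]
      omega
    have hcl : ∀ h1 ∈ range q, ((((range M).filter
          (fun i => ∃ k : ℕ, |(k : ℝ) - f (n0 + (h1 + q * i))| ≤ C ∧ ¬ H k)).image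
            (fun i => n0 + (h1 + q * i))).card : ℝ) ≤ ε * M := by
      intro h1 hh1
      rw [mem_range] at hh1
      have h2 : ((((range M).filter
          (fun i => ∃ k : ℕ, |(k : ℝ) - f (n0 + (h1 + q * i))| ≤ C ∧ ¬ H k)).image
            (fun i => n0 + (h1 + q * i))).card : ℝ) ≤ (((range M).filter
          (fun i => ∃ k : ℕ, |(k : ℝ) - f (n0 + (h1 + q * i))| ≤ C ∧ ¬ H k)).card : ℝ) := by
        exact_mod_cast card_image_le
      refine h2.trans ?_
      have hfn0 := hf n0 hn0 (by omega)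
      have hα0 : 0 ≤ α := hc₀.le.trans hαc
      have hh1r : (h1 : ℝ) ≤ q := by exact_mod_cast hh1.le
      have hqM : q ≤ q * M := Nat.le_mul_of_pos_right q hM1
      have h3 := one_class C M ε' Y H (hM Y H hH) (fun i => f (n0 + (h1 + q * i))) (f n0 + h1 * α)
        (by
          have : 0 ≤ (h1 : ℝ) * α := by positivity
          linarith) r hr1 (fun i hi => by
          have hidx : h1 + q * i ≤ L := by
            have h4 : q * i + q ≤ q * M := by
              calc q * i + q = q * (i + 1) := by ring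
                _ ≤ q * M := Nat.mul_le_mul_left _ hi
            omega
          have h4 := hlin' (h1 + q * i) hidx
          have h5 : |(i : ℝ) * ((q : ℝ) * α - r)| ≤ 1 / 2 := by
            rw [abs_mul, hrr, abs_of_nonneg (Nat.cast_nonneg i)]
            have hi' : (i : ℝ) ≤ M := by exact_mod_cast hi.le
            calc (i : ℝ) * |(q : ℝ) * α - rz| ≤ M * (1 / (2 * (M : ℝ) + 1)) :=
                  mul_le_mul hi' hkr' (abs_nonneg _) (by linarith)
              _ ≤ 1 / 2 := by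
                rw [mul_one_div, div_le_div_iff₀ (by positivity) (by norm_num)]
                linarith
          have e1 : f (n0 + (h1 + q * i)) - (f n0 + h1 * α + i * r) =
              (f (n0 + (h1 + q * i)) - f n0 - ((h1 + q * i : ℕ) : ℝ) * α) + (i : ℝ) * ((q : ℝ) * α - r) := by
            push_cast
            ring
          show |f (n0 + (h1 + q * i)) - (f n0 + h1 * α + i * r)| ≤ 1
          rw [e1]
          refine (abs_add_le _ _).trans ?_
          linarith) (by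
          -- the size
          have h4 := hlin' q (by omega)
          have h5 := hmono (u + T - (n0 + q)) (n0 + q) (by omega) (by omega)
          have e1 : n0 + q + (u + T - (n0 + q)) = u + T := by omega
          rw [e1] at h5
          have h6 := (abs_le.1 h4).1
          have h7 := (abs_le.1 (hkr'.trans h3M)).1
          have h8 : (h1 : ℝ) * α ≤ q * α := mul_le_mul_of_nonneg_right hh1r hα0
          have h9 : f n0 + h1 * α + C + 2 + r ≤ 4 * f (u + T) := by
            rw [hrr]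
            have hC0 : (0 : ℝ) ≤ C := Nat.cast_nonneg C
            linarith
          have h10 : 0 ≤ f (u + T) := by
            have := hf (u + T) (by omega) le_rfl
            have hC0 : (0 : ℝ) ≤ C := Nat.cast_nonneg C
            linarith
          calc ((2 * M + 1 : ℕ) : ℝ) * (f n0 + h1 * α + C + 2 + r) ≤ ((2 * M + 1 : ℕ) : ℝ) * (4 * f (u + T)) :=
                mul_le_mul_of_nonneg_left h9 (Nat.cast_nonneg _)
            _ ≤ ((L + 4 * (2 * M + 1) : ℕ) : ℝ) * f (u + T) := by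
                push_cast
                nlinarith
            _ ≤ Y := hYf)
      refine h3.trans (le_of_eq ?_)
      rw [hε']
      have : (2 * (C : ℝ) + 4) ≠ 0 := by positivity
      field_simp
    have h5 : (((Ico n0 (n0 + q * M)).filter (fun n => ∃ k : ℕ, |(k : ℝ) - f n| ≤ C ∧ ¬ H k)).card : ℝ) ≤
        ∑ h1 ∈ range q, ((((range M).filter
          (fun i => ∃ k : ℕ, |(k : ℝ) - f (n0 + (h1 + q * i))| ≤ C ∧ ¬ H k)).image
            (fun i => n0 + (h1 + q * i))).card : ℝ) := by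
      exact_mod_cast (card_le_card hsub).trans card_biUnion_le
    refine h5.trans ((sum_le_sum hcl).trans (le_of_eq ?_))
    rw [sum_const, card_range, nsmul_eq_mul]
    push_cast
    ring)
  refine hcov.trans ?_
  have : ((L : ℕ) : ℝ) ≤ ((L + 4 * (2 * M + 1) : ℕ) : ℝ) := by exact_mod_cast Nat.le_add_right _ _
  linarith

end Pool.Agent.K3h84.GP
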